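import Pool.Agent.Lib.MP_af5b7f_an.Defs

-- part Pool.Agent.Lib.MP_af5b7f_an.Conv
section

/-! Convolution of a continuous compactly supported density with a smooth kernel. -/

set_option autoImplicit false

open Filter Topology MeasureTheory Set
open scoped ContDiff

noncomputable section

namespace Pool.Agent.Lib.MP_af5b7f_an

variable {E : Type} [NormedAddCommGroup E] [InnerProductSpace ℝ E] [FiniteDimensional ℝ E]

lemma nat_le_infty (n : ℕ) : ((n : ℕ) : WithTop ℕ∞) ≤ ∞ := by exact_mod_cast le_top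

lemma two_le_infty : (2 : WithTop ℕ∞) ≤ ∞ := nat_le_infty 2

/-- directional derivative -/
def dd (G : E → ℝ) (v : E) : E → ℝ := fun z => fderiv ℝ G z v

omit [FiniteDimensional ℝ E] in
lemma contDiff_dd {G : E → ℝ} (hG : ContDiff ℝ ∞ G) (v : E) : ContDiff ℝ ∞ (dd G v) := by
  have h : ContDiff ℝ ∞ (fderiv ℝ G) := hG.fderiv_right (m := ∞) (by simp)
  exact h.clm_apply contDiff_const

omit [FiniteDimensional ℝ E] in
lemma iteratedFDeriv_succ_dd {G : E → ℝ} (hG : ContDiff ℝ ∞ G) (j : ℕ) (x : E)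
    (m : Fin (j + 1) → E) :
    iteratedFDeriv ℝ (j + 1) G x m =
      iteratedFDeriv ℝ j (dd G (m (Fin.last j))) x (Fin.init m) := by
  have h : ContDiff ℝ ∞ (fderiv ℝ G) := hG.fderiv_right (m := ∞) (by simp)
  rw [iteratedFDeriv_succ_apply_right]
  exact (iteratedFDeriv_clm_apply_const_apply h (by exact_mod_cast le_top)).symm

lemma lap_eq_sum {ι : Type} [Fintype ι] (b : OrthonormalBasis ι ℝ E) {G : E → ℝ}
    (hG : ContDiff ℝ ∞ G) :
    (Laplacian.laplacian G : E → ℝ) = fun x => ∑ i, dd (dd G (b i)) (b i) x := by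
  rw [InnerProductSpace.laplacian_eq_iteratedFDeriv_orthonormalBasis G b]
  funext x
  refine Finset.sum_congr rfl fun i _ => ?_
  rw [iteratedFDeriv_succ_dd hG, iteratedFDeriv_one_apply]
  rfl

lemma contDiff_lap {G : E → ℝ} (hG : ContDiff ℝ ∞ G) :
    ContDiff ℝ ∞ (Laplacian.laplacian G : E → ℝ) := by
  rw [lap_eq_sum (stdOrthonormalBasis ℝ E) hG]
  exact ContDiff.sum fun i _ => contDiff_dd (contDiff_dd hG _) _

lemma lapPow_succ (n : ℕ) (G : E → ℝ) :
    lapPow (n + 1) G = lapPow n (Laplacian.laplacian G : E → ℝ) := rfl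

lemma lapPow_zero (G : E → ℝ) : lapPow 0 G = G := rfl

lemma contDiff_lapPow (n : ℕ) : ∀ {G : E → ℝ}, ContDiff ℝ ∞ G → ContDiff ℝ ∞ (lapPow n G) := by
  induction n with
  | zero => intro G hG; exact hG
  | succ n ih => intro G hG; rw [lapPow_succ]; exact ih (contDiff_lap hG)

lemma lap_add {F G : E → ℝ} (hF : ContDiff ℝ ∞ F) (hG : ContDiff ℝ ∞ G) :
    (Laplacian.laplacian (fun x => F x + G x) : E → ℝ) =
      fun x => (Laplacian.laplacian F : E → ℝ) x + (Laplacian.laplacian G : E → ℝ) x := by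
  funext x
  exact ContDiffAt.laplacian_add (hF.contDiffAt.of_le two_le_infty)
    (hG.contDiffAt.of_le two_le_infty)

lemma lap_mul (c : ℝ) {F : E → ℝ} (hF : ContDiff ℝ ∞ F) :
    (Laplacian.laplacian (fun x => c * F x) : E → ℝ) =
      fun x => c * (Laplacian.laplacian F : E → ℝ) x := by
  funext x
  exact InnerProductSpace.laplacian_smul c (hF.contDiffAt.of_le two_le_infty)

lemma lapPow_add (n : ℕ) : ∀ {F G : E → ℝ}, ContDiff ℝ ∞ F → ContDiff ℝ ∞ G →
    lapPow n (fun x => F x + G x) = fun x => lapPow n F x + lapPow n G x := by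
  induction n with
  | zero => intro F G _ _; rfl
  | succ n ih =>
    intro F G hF hG
    rw [lapPow_succ, lap_add hF hG, ih (contDiff_lap hF) (contDiff_lap hG)]
    rfl

lemma lapPow_mul (n : ℕ) (c : ℝ) : ∀ {F : E → ℝ}, ContDiff ℝ ∞ F →
    lapPow n (fun x => c * F x) = fun x => c * lapPow n F x := by
  induction n with
  | zero => intro F _; rfl
  | succ n ih =>
    intro F hF
    rw [lapPow_succ, lap_mul c hF, ih (contDiff_lap hF)]
    rfl

variable [MeasurableSpace E] [BorelSpace E]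

/-- convolution -/
def conv (f G : E → ℝ) (x : E) : ℝ := ∫ y, f y * G (x - y)

lemma integrable_conv {F : Type} [NormedAddCommGroup F] [NormedSpace ℝ F] {f : E → ℝ}
    (hf : Continuous f) (hc : HasCompactSupport f) {G : E → F} (hG : Continuous G) (x : E) :
    Integrable (fun y => f y • G (x - y)) := by
  apply Continuous.integrable_of_hasCompactSupport
  · exact hf.smul (hG.comp (continuous_const.sub continuous_id))
  · exact hc.smul_right

lemma hasFDerivAt_conv {f : E → ℝ} (hf : Continuous f) (hc : HasCompactSupport f) {G : E → ℝ}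
    (hG : ContDiff ℝ ∞ G) (x : E) :
    HasFDerivAt (conv f G) (∫ y, f y • fderiv ℝ G (x - y)) x := by
  have hG1 : Continuous (fderiv ℝ G) := hG.continuous_fderiv (by simp)
  have hd : Differentiable ℝ G := hG.differentiable (by simp)
  obtain ⟨R, hR⟩ := hc.isCompact.isBounded.subset_closedBall (0 : E)
  obtain ⟨M, hM⟩ := (isCompact_closedBall (0 : E) (‖x‖ + 1 + R)).exists_bound_of_continuousOn
    hG1.continuousOn
  refine hasFDerivAt_integral_of_dominated_of_fderiv_le (F := fun x y => f y * G (x - y))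
    (F' := fun x y => f y • fderiv ℝ G (x - y)) (bound := fun y => ‖f y‖ * M)
    (s := Metric.ball x 1) (Metric.ball_mem_nhds x one_pos) ?_ ?_ ?_ ?_ ?_ ?_
  · exact Eventually.of_forall fun z =>
      (integrable_conv hf hc hG.continuous z).aestronglyMeasurable
  · exact integrable_conv hf hc hG.continuous x
  · exact (integrable_conv hf hc hG1 x).aestronglyMeasurable
  · refine Eventually.of_forall fun y z hz => ?_
    by_cases hy : f y = 0
    · simp [hy]
    · have hy' : y ∈ Metric.closedBall (0 : E) R := hR (subset_tsupport _ hy)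
      rw [norm_smul]
      refine mul_le_mul_of_nonneg_left (hM _ ?_) (norm_nonneg _)
      rw [mem_closedBall_zero_iff] at hy' ⊢
      have h1 : ‖z - x‖ < 1 := by rwa [← dist_eq_norm]
      calc ‖z - y‖ = ‖x + (z - x) - y‖ := by congr 1; abel
        _ ≤ ‖x‖ + ‖z - x‖ + ‖y‖ := (norm_sub_le _ _).trans (by gcongr; exact norm_add_le _ _)
        _ ≤ _ := by linarith
  · exact (hf.integrable_of_hasCompactSupport hc).norm.mul_const M
  · refine Eventually.of_forall fun y z _ => ?_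
    have h1 : HasFDerivAt (fun z => G (z - y)) (fderiv ℝ G (z - y)) z := by
      have := (hd (z - y)).hasFDerivAt.comp z ((hasFDerivAt_id z).sub_const y)
      rw [ContinuousLinearMap.comp_id] at this
      exact this
    exact h1.const_mul (f y)

lemma dd_conv {f : E → ℝ} (hf : Continuous f) (hc : HasCompactSupport f) {G : E → ℝ}
    (hG : ContDiff ℝ ∞ G) (v : E) : dd (conv f G) v = conv f (dd G v) := by
  funext x
  have hG1 : Continuous (fderiv ℝ G) := hG.continuous_fderiv (by simp)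
  unfold dd
  rw [(hasFDerivAt_conv hf hc hG x).fderiv,
    ContinuousLinearMap.integral_apply (integrable_conv hf hc hG1 x)]
  simp [conv]

lemma contDiff_conv_nat {f : E → ℝ} (hf : Continuous f) (hc : HasCompactSupport f) (n : ℕ) :
    ∀ {G : E → ℝ}, ContDiff ℝ ∞ G → ContDiff ℝ n (conv f G) := by
  induction n with
  | zero =>
    intro G hG
    exact contDiff_zero.2 (Differentiable.continuous
      (fun x => (hasFDerivAt_conv hf hc hG x).differentiableAt))
  | succ n ih =>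
    intro G hG
    rw [Nat.cast_succ, contDiff_succ_iff_fderiv_apply]
    refine ⟨fun x => (hasFDerivAt_conv hf hc hG x).differentiableAt, by simp, fun v => ?_⟩
    have := ih (contDiff_dd hG v)
    rw [← dd_conv hf hc hG v] at this
    exact this

lemma contDiff_conv {f : E → ℝ} (hf : Continuous f) (hc : HasCompactSupport f) {G : E → ℝ}
    (hG : ContDiff ℝ ∞ G) : ContDiff ℝ ∞ (conv f G) :=
  contDiff_infty.2 fun n => contDiff_conv_nat hf hc n hG

lemma iteratedFDeriv_conv_apply {f : E → ℝ} (hf : Continuous f) (hc : HasCompactSupport f)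
    (j : ℕ) : ∀ {G : E → ℝ}, ContDiff ℝ ∞ G → ∀ (x : E) (m : Fin j → E),
      iteratedFDeriv ℝ j (conv f G) x m = ∫ y, f y * iteratedFDeriv ℝ j G (x - y) m := by
  induction j with
  | zero => intro G _ x m; simp [conv]
  | succ j ih =>
    intro G hG x m
    rw [iteratedFDeriv_succ_dd (contDiff_conv hf hc hG), dd_conv hf hc hG,
      ih (contDiff_dd hG _)]
    simp_rw [iteratedFDeriv_succ_dd hG]

lemma iteratedFDeriv_conv {f : E → ℝ} (hf : Continuous f) (hc : HasCompactSupport f)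
    (j : ℕ) {G : E → ℝ} (hG : ContDiff ℝ ∞ G) (x : E) :
    iteratedFDeriv ℝ j (conv f G) x = ∫ y, f y • iteratedFDeriv ℝ j G (x - y) := by
  ext m
  rw [iteratedFDeriv_conv_apply hf hc j hG, ContinuousMultilinearMap.integral_apply
    (integrable_conv hf hc (hG.continuous_iteratedFDeriv (by exact_mod_cast le_top)) x)]
  simp

lemma lap_conv {f : E → ℝ} (hf : Continuous f) (hc : HasCompactSupport f) {G : E → ℝ}
    (hG : ContDiff ℝ ∞ G) :
    (Laplacian.laplacian (conv f G) : E → ℝ) = conv f (Laplacian.laplacian G) := by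
  rw [lap_eq_sum (stdOrthonormalBasis ℝ E) (contDiff_conv hf hc hG),
    lap_eq_sum (stdOrthonormalBasis ℝ E) hG]
  funext x
  simp_rw [dd_conv hf hc hG, dd_conv hf hc (contDiff_dd hG _)]
  unfold conv
  rw [← integral_finsetSum]
  · simp_rw [Finset.mul_sum]
  · intro i _
    exact integrable_conv hf hc (contDiff_dd (contDiff_dd hG _) _).continuous x

lemma lapPow_conv {f : E → ℝ} (hf : Continuous f) (hc : HasCompactSupport f) (n : ℕ) :
    ∀ {G : E → ℝ}, ContDiff ℝ ∞ G → lapPow n (conv f G) = conv f (lapPow n G) := by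
  induction n with
  | zero => intro G _; rfl
  | succ n ih =>
    intro G hG
    rw [lapPow_succ, lap_conv hf hc hG, ih (contDiff_lap hG)]
    rfl

end Pool.Agent.Lib.MP_af5b7f_an
end
end

-- part Pool.Agent.Lib.MP_af5b7f_an.Kernel
section

/-! The regularised logarithmic kernel `log (a + |z|²)` in dimension six. -/

set_option autoImplicit false

open Filter Topology MeasureTheory Set
open scoped ContDiff InnerProductSpace

noncomputable section

namespace Pool.Agent.Lib.MP_af5b7f_an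

variable {E : Type} [NormedAddCommGroup E] [InnerProductSpace ℝ E] [FiniteDimensional ℝ E]

lemma nat_lt_infty (n : ℕ) : ((n : ℕ) : WithTop ℕ∞) < ∞ :=
  WithTop.coe_lt_coe.2 (ENat.natCast_lt_top n)

/-- radial function `g (a + |z|²)` -/
def rad (g : ℝ → ℝ) (a : ℝ) : E → ℝ := fun z => g (a + ‖z‖ ^ 2)

omit [FiniteDimensional ℝ E] in
lemma contDiff_rad {g : ℝ → ℝ} {a : ℝ} (ha : 0 < a) (hg : ContDiffOn ℝ ∞ g (Ioi 0)) :
    ContDiff ℝ ∞ (rad g a : E → ℝ) := by
  have h1 : ContDiff ℝ ∞ (fun z : E => a + ‖z‖ ^ 2) := contDiff_const.add (contDiff_norm_sq ℝ)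
  exact hg.comp_contDiff h1 (fun z => by simp only [mem_Ioi]; positivity)

omit [FiniteDimensional ℝ E] in
lemma hasFDerivAt_rad {g g' : ℝ → ℝ} {a : ℝ} (ha : 0 < a)
    (hg : ∀ t, 0 < t → HasDerivAt g (g' t) t) (z : E) :
    HasFDerivAt (rad g a : E → ℝ) (g' (a + ‖z‖ ^ 2) • ((2 : ℝ) • innerSL ℝ z)) z := by
  have h1 : HasFDerivAt (fun z : E => a + ‖z‖ ^ 2) ((2 : ℝ) • innerSL ℝ z) z := by
    have := (hasStrictFDerivAt_norm_sq z).hasFDerivAt.const_add a
    rw [two_smul] at this ⊢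
    exact this
  exact (hg _ (by positivity)).comp_hasFDerivAt z h1

lemma lap_rad (hE : Module.finrank ℝ E = 6) {g g' g'' : ℝ → ℝ} {a : ℝ} (ha : 0 < a)
    (hs : ContDiffOn ℝ ∞ g (Ioi 0))
    (hg : ∀ t, 0 < t → HasDerivAt g (g' t) t) (hg' : ∀ t, 0 < t → HasDerivAt g' (g'' t) t) :
    (Laplacian.laplacian (rad g a : E → ℝ) : E → ℝ) =
      rad (fun t => 4 * (t - a) * g'' t + 12 * g' t) a := by
  rw [lap_eq_sum (stdOrthonormalBasis ℝ E) (contDiff_rad ha hs)]
  funext z
  have h1 : ∀ v : E, dd (rad g a) v = fun z => rad g' a z * (2 * ⟪z, v⟫_ℝ) := by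
    intro v
    funext y
    unfold dd
    rw [(hasFDerivAt_rad ha hg y).fderiv]
    simp [rad]
  have h2 : ∀ v : E, dd (dd (rad g a) v) v z =
      4 * g'' (a + ‖z‖ ^ 2) * ⟪z, v⟫_ℝ ^ 2 + 2 * g' (a + ‖z‖ ^ 2) * ‖v‖ ^ 2 := by
    intro v
    rw [h1]
    have h3 : HasFDerivAt (fun z : E => 2 * ⟪z, v⟫_ℝ) ((2 : ℝ) • innerSL ℝ v) z := by
      have := ((innerSL ℝ v).hasFDerivAt (x := z)).const_mul 2
      simp only [innerSL_apply_apply] at this
      simp_rw [real_inner_comm v]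
      exact this
    have h4 := (hasFDerivAt_rad ha hg' z).mul h3
    unfold dd
    rw [show (fun z : E => rad g' a z * (2 * ⟪z, v⟫_ℝ)) =
      (rad g' a * fun z : E => 2 * ⟪z, v⟫_ℝ) from rfl, h4.fderiv]
    simp [rad]
    ring
  simp_rw [h2]
  rw [Finset.sum_add_distrib, ← Finset.mul_sum, ← Finset.mul_sum,
    (stdOrthonormalBasis ℝ E).sum_sq_inner_left]
  simp [rad, hE]
  ring

lemma lap3_log (hE : Module.finrank ℝ E = 6) {a : ℝ} (ha : 0 < a) :
    lapPow 3 (rad Real.log a : E → ℝ) = rad (fun t => 7680 * a ^ 3 / t ^ 6) a := by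
  have hinv : ∀ (k : ℕ) (t : ℝ), 0 < t →
      HasDerivAt (fun t : ℝ => (t ^ (k + 1))⁻¹) (-(k + 1) * (t ^ (k + 2))⁻¹) t := by
    intro k t ht
    have := (hasDerivAt_pow (k + 1) t).fun_inv (by positivity)
    refine this.congr_deriv ?_
    simp only [Nat.add_sub_cancel]
    push_cast
    field_simp
    ring
  have hsm : ∀ k : ℕ, ContDiffOn ℝ ∞ (fun t : ℝ => (t ^ k)⁻¹) (Ioi 0) := fun k =>
    (contDiffOn_id.pow k).inv (fun t ht => by have : (0 : ℝ) < t := ht; simp only [id]; positivity)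
  have hrad : ∀ g h : ℝ → ℝ, (∀ t, 0 < t → g t = h t) → (rad g a : E → ℝ) = rad h a :=
    fun g h hgh => funext fun z => hgh _ (by positivity)
  have s1 : (Laplacian.laplacian (rad Real.log a : E → ℝ) : E → ℝ) =
      rad (fun t => 8 * (t ^ 1)⁻¹ + 4 * a * (t ^ 2)⁻¹) a := by
    rw [lap_rad hE ha (g' := fun t => (t ^ 1)⁻¹) (g'' := fun t => -(t ^ 2)⁻¹)
      (Real.contDiffOn_log.mono (fun t ht => ne_of_gt ht))
      (fun t ht => by simpa using Real.hasDerivAt_log ht.ne')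
      (fun t ht => (hinv 0 t ht).congr_deriv (by simp))]
    refine hrad _ _ fun t ht => ?_
    field_simp
    ring
  have s2 : (Laplacian.laplacian (rad (fun t => 8 * (t ^ 1)⁻¹ + 4 * a * (t ^ 2)⁻¹) a : E → ℝ) :
      E → ℝ) = rad (fun t => -32 * (t ^ 2)⁻¹ + -64 * a * (t ^ 3)⁻¹ + -96 * a ^ 2 * (t ^ 4)⁻¹) a := by
    rw [lap_rad hE ha (g' := fun t => -8 * (t ^ 2)⁻¹ + -8 * a * (t ^ 3)⁻¹)
      (g'' := fun t => 16 * (t ^ 3)⁻¹ + 24 * a * (t ^ 4)⁻¹)
      ((contDiffOn_const.mul (hsm 1)).add (contDiffOn_const.mul (hsm 2)))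
      (fun t ht => (((hinv 0 t ht).const_mul 8).add ((hinv 1 t ht).const_mul (4 * a))).congr_deriv
        (by push_cast; ring))
      (fun t ht => (((hinv 1 t ht).const_mul (-8)).add
        ((hinv 2 t ht).const_mul (-8 * a))).congr_deriv (by push_cast; ring))]
    refine hrad _ _ fun t ht => ?_
    field_simp
    ring
  have s3 : (Laplacian.laplacian (rad (fun t => -32 * (t ^ 2)⁻¹ + -64 * a * (t ^ 3)⁻¹ +
      -96 * a ^ 2 * (t ^ 4)⁻¹) a : E → ℝ) : E → ℝ) = rad (fun t => 7680 * a ^ 3 / t ^ 6) a := by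
    rw [lap_rad hE ha
      (g' := fun t => 64 * (t ^ 3)⁻¹ + 192 * a * (t ^ 4)⁻¹ + 384 * a ^ 2 * (t ^ 5)⁻¹)
      (g'' := fun t => -192 * (t ^ 4)⁻¹ + -768 * a * (t ^ 5)⁻¹ + -1920 * a ^ 2 * (t ^ 6)⁻¹)
      (((contDiffOn_const.mul (hsm 2)).add (contDiffOn_const.mul (hsm 3))).add
        (contDiffOn_const.mul (hsm 4)))
      (fun t ht => ((((hinv 1 t ht).const_mul (-32)).add
        ((hinv 2 t ht).const_mul (-64 * a))).add
          ((hinv 3 t ht).const_mul (-96 * a ^ 2))).congr_deriv (by push_cast; ring))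
      (fun t ht => ((((hinv 2 t ht).const_mul 64).add
        ((hinv 3 t ht).const_mul (192 * a))).add
          ((hinv 4 t ht).const_mul (384 * a ^ 2))).congr_deriv (by push_cast; ring))]
    refine hrad _ _ fun t ht => ?_
    field_simp
    ring
  rw [lapPow_succ, s1, lapPow_succ, s2, lapPow_succ, s3, lapPow_zero]

omit [FiniteDimensional ℝ E] in
lemma contDiff_logK {a : ℝ} (ha : 0 < a) : ContDiff ℝ ∞ (rad Real.log a : E → ℝ) :=
  contDiff_rad ha (Real.contDiffOn_log.mono (fun _ ht => ne_of_gt ht))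

lemma exists_bound_upto {F : Type} [NormedAddCommGroup F] [NormedSpace ℝ F] {G : E → F}
    (hG : ContDiff ℝ ∞ G) (R : ℝ) (N : ℕ) :
    ∃ M : ℝ, 1 ≤ M ∧ ∀ j ≤ N, ∀ z : E, ‖z‖ ≤ R → ‖iteratedFDeriv ℝ j G z‖ ≤ M := by
  have h : ∀ j : ℕ, ∃ M : ℝ, ∀ z : E, ‖z‖ ≤ R → ‖iteratedFDeriv ℝ j G z‖ ≤ M := by
    intro j
    obtain ⟨M, hM⟩ := (isCompact_closedBall (0 : E) R).exists_bound_of_continuousOn
      (hG.continuous_iteratedFDeriv (nat_le_infty j)).continuousOn
    exact ⟨M, fun z hz => hM z (mem_closedBall_zero_iff.2 hz)⟩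
  choose M hM using h
  refine ⟨1 + ∑ j ∈ Finset.range (N + 1), |M j|, ?_, fun j hj z hz => ?_⟩
  · have : 0 ≤ ∑ j ∈ Finset.range (N + 1), |M j| := Finset.sum_nonneg fun _ _ => abs_nonneg _
    linarith
  · have : |M j| ≤ ∑ j ∈ Finset.range (N + 1), |M j| :=
      Finset.single_le_sum (f := fun j => |M j|) (fun _ _ => abs_nonneg _)
        (Finset.mem_range.2 (by omega))
    linarith [hM j z hz, le_abs_self (M j)]

lemma logK_bound_unit : ∃ C : ℝ, 0 < C ∧ ∀ a : ℝ, 0 < a → ∀ y : E, a + ‖y‖ ^ 2 = 1 →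
    ∀ j ≤ 6, ‖iteratedFDeriv ℝ j (rad Real.log a : E → ℝ) y‖ ≤ C := by
  obtain ⟨M, hM1, hM⟩ := exists_bound_upto (E := E) (contDiff_norm_sq ℝ (n := ∞)) 1 6
  set C₀ : ℝ := ∑ i ∈ Finset.range 7, ‖iteratedFDerivWithin ℝ i Real.log (Ioi 0) 1‖ with hC₀
  have hC₀n : 0 ≤ C₀ := Finset.sum_nonneg fun _ _ => norm_nonneg _
  refine ⟨720 * (C₀ + 1) * M ^ 6, by positivity, fun a ha y hy j hj => ?_⟩
  have h1 : ContDiff ℝ ∞ (fun z : E => a + ‖z‖ ^ 2) := contDiff_const.add (contDiff_norm_sq ℝ)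
  have hy1 : ‖y‖ ≤ 1 := by nlinarith [norm_nonneg y]
  have := norm_iteratedFDeriv_comp_le' (𝕜 := ℝ) (g := Real.log) (f := fun z : E => a + ‖z‖ ^ 2)
    (n := j) (N := ∞) (t := Ioi 0) (by rintro _ ⟨z, rfl⟩; simp only [mem_Ioi]; positivity)
    (uniqueDiffOn_Ioi 0) (Real.contDiffOn_log.mono (fun _ ht => ne_of_gt ht)) h1 (nat_le_infty j)
    y (C := C₀ + 1) (D := M) (fun i hi => by
      rw [hy]
      have : ‖iteratedFDerivWithin ℝ i Real.log (Ioi 0) 1‖ ≤ C₀ :=
        Finset.single_le_sum (f := fun i => ‖iteratedFDerivWithin ℝ i Real.log (Ioi 0) 1‖)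
          (fun _ _ => norm_nonneg _) (Finset.mem_range.2 (by omega))
      linarith)
    (fun i hi1 hi => by
      have e : iteratedFDeriv ℝ i (fun z : E => a + ‖z‖ ^ 2) y =
          iteratedFDeriv ℝ i (fun z : E => ‖z‖ ^ 2) y := by
        rw [fun_iteratedFDeriv_add_apply contDiffAt_const
          ((contDiff_norm_sq ℝ (n := i)).contDiffAt), iteratedFDeriv_const_of_ne (by omega)]
        simp
      rw [e]
      exact (hM i (by omega) y hy1).trans (le_self_pow₀ hM1 (by omega)))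
  refine this.trans ?_
  have h2 : (j.factorial : ℝ) ≤ 720 := by
    have := Nat.factorial_le hj
    exact_mod_cast this
  have h3 : M ^ j ≤ M ^ 6 := pow_le_pow_right₀ hM1 hj
  gcongr

lemma logK_bound : ∃ C : ℝ, 0 < C ∧ ∀ a : ℝ, 0 < a → ∀ z : E, z ≠ 0 →
    ∀ j, 1 ≤ j → j ≤ 6 → ‖iteratedFDeriv ℝ j (rad Real.log a : E → ℝ) z‖ ≤ C / ‖z‖ ^ j := by
  obtain ⟨C, hC, h⟩ := logK_bound_unit (E := E)
  refine ⟨C, hC, fun a ha z hz j hj1 hj => ?_⟩
  have hz' : 0 < ‖z‖ := norm_pos_iff.2 hz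
  set l : ℝ := Real.sqrt (a + ‖z‖ ^ 2) with hl
  have hl2 : l ^ 2 = a + ‖z‖ ^ 2 := Real.sq_sqrt (by positivity)
  have hlz : ‖z‖ ≤ l := Real.le_sqrt_of_sq_le (by linarith)
  have hl0 : 0 < l := hz'.trans_le hlz
  have ha' : 0 < a / l ^ 2 := by positivity
  have e1 : (rad Real.log a : E → ℝ) =
      fun y => Real.log (l ^ 2) + rad Real.log (a / l ^ 2) (l⁻¹ • y) := by
    funext y
    simp only [rad]
    rw [← Real.log_mul (by positivity) (by positivity), norm_smul, norm_inv, Real.norm_eq_abs,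
      abs_of_pos hl0]
    congr 1
    field_simp
  have hs := contDiff_logK (E := E) ha'
  have hs2 : ContDiff ℝ ∞ (fun y : E => rad Real.log (a / l ^ 2) (l⁻¹ • y)) :=
    hs.comp (contDiff_id.const_smul _)
  rw [e1, fun_iteratedFDeriv_add_apply contDiffAt_const (hs2.contDiffAt.of_le (nat_le_infty j)),
    iteratedFDeriv_const_of_ne (by omega), iteratedFDeriv_comp_const_smul _
      (hs.of_le (nat_le_infty j))]
  simp only [Pi.zero_apply, zero_add, norm_smul, norm_pow, norm_inv, Real.norm_eq_abs,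
    abs_of_pos hl0]
  have h1 := h _ ha' (l⁻¹ • z) (by
    rw [norm_smul, norm_inv, Real.norm_eq_abs, abs_of_pos hl0]
    field_simp
    linarith) j hj
  calc l⁻¹ ^ j * ‖iteratedFDeriv ℝ j (rad Real.log (a / l ^ 2)) (l⁻¹ • z)‖ ≤ ‖z‖⁻¹ ^ j * C := by
        gcongr
    _ = C / ‖z‖ ^ j := by rw [inv_pow]; ring

/-- The kernel estimates used below: size of the derivatives up to order five and the Hölder
quotient of the fifth derivative. -/
lemma logK_holder : ∃ C : ℝ, 0 < C ∧ ∀ a : ℝ, 0 < a → ∀ α : ℝ, 0 ≤ α → α ≤ 1 →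
    (∀ z : E, z ≠ 0 → ‖z‖ ≤ 6 → ∀ j, 1 ≤ j → j ≤ 5 →
      ‖iteratedFDeriv ℝ j (rad Real.log a : E → ℝ) z‖ ≤ C * ‖z‖ ^ (-(5 + α))) ∧
    (∀ z z' : E, z ≠ 0 → z' ≠ 0 →
      ‖iteratedFDeriv ℝ 5 (rad Real.log a : E → ℝ) z -
        iteratedFDeriv ℝ 5 (rad Real.log a : E → ℝ) z'‖ ≤
        C * ‖z - z'‖ ^ α * (‖z‖ ^ (-(5 + α)) + ‖z'‖ ^ (-(5 + α)))) := by
  obtain ⟨C, hC, h⟩ := logK_bound (E := E)
  refine ⟨6 ^ 6 * C, by positivity, fun a ha α hα0 hα1 => ⟨fun z hz hz6 j hj1 hj => ?_, ?_⟩⟩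
  · have hz' : 0 < ‖z‖ := norm_pos_iff.2 hz
    refine (h a ha z hz j hj1 (by omega)).trans ?_
    have e : C / ‖z‖ ^ j = C * (‖z‖ ^ (5 + α - j) * ‖z‖ ^ (-(5 + α))) := by
      rw [← Real.rpow_add hz', div_eq_mul_inv, ← Real.rpow_natCast, ← Real.rpow_neg hz'.le]
      congr 2
      ring
    have hj' : (j : ℝ) ≤ 5 := by exact_mod_cast hj
    have hj'' : (1 : ℝ) ≤ j := by exact_mod_cast hj1
    have h1 : ‖z‖ ^ (5 + α - j) ≤ 6 ^ 6 := by
      calc ‖z‖ ^ (5 + α - j) ≤ (6 : ℝ) ^ (5 + α - j) :=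
            Real.rpow_le_rpow hz'.le hz6 (by linarith)
        _ ≤ (6 : ℝ) ^ ((6 : ℕ) : ℝ) :=
            Real.rpow_le_rpow_of_exponent_le (by norm_num) (by push_cast; linarith)
        _ = 6 ^ 6 := Real.rpow_natCast _ _
    rw [e]
    have : 0 ≤ ‖z‖ ^ (-(5 + α)) := by positivity
    calc C * (‖z‖ ^ (5 + α - j) * ‖z‖ ^ (-(5 + α))) ≤ C * (6 ^ 6 * ‖z‖ ^ (-(5 + α))) := by gcongr
      _ = _ := by ring
  · have hs := contDiff_logK (E := E) ha
    have near : ∀ z z' : E, z ≠ 0 → ‖z - z'‖ ≤ ‖z‖ / 2 →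
        ‖iteratedFDeriv ℝ 5 (rad Real.log a : E → ℝ) z -
          iteratedFDeriv ℝ 5 (rad Real.log a : E → ℝ) z'‖ ≤
          6 ^ 6 * C * ‖z - z'‖ ^ α * ‖z‖ ^ (-(5 + α)) := by
      intro z z' hz hd
      have hz' : 0 < ‖z‖ := norm_pos_iff.2 hz
      have hdiff : Differentiable ℝ (iteratedFDeriv ℝ 5 (rad Real.log a : E → ℝ)) :=
        hs.differentiable_iteratedFDeriv (m := 5) (nat_lt_infty 5)
      have mv := (convex_closedBall z (‖z‖ / 2)).norm_image_sub_le_of_norm_fderiv_le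
        (𝕜 := ℝ) (f := iteratedFDeriv ℝ 5 (rad Real.log a : E → ℝ)) (C := C / (‖z‖ / 2) ^ 6)
        (fun y _ => hdiff y) (fun y hy => by
          rw [norm_fderiv_iteratedFDeriv]
          have hy1 : ‖z‖ / 2 ≤ ‖y‖ := by
            rw [mem_closedBall_iff_norm'] at hy
            have := norm_sub_norm_le z y
            linarith
          have hy0 : y ≠ 0 := norm_pos_iff.1 (by linarith)
          refine (h a ha y hy0 6 (by norm_num) le_rfl).trans ?_
          gcongr)
        (x := z') (y := z) (mem_closedBall_iff_norm'.2 hd)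
        (Metric.mem_closedBall_self (by positivity))
      refine mv.trans ?_
      have h1 : ‖z - z'‖ ≤ ‖z - z'‖ ^ α * ‖z‖ ^ (1 - α) := by
        calc ‖z - z'‖ = ‖z - z'‖ ^ (α + (1 - α)) := by simp
          _ = ‖z - z'‖ ^ α * ‖z - z'‖ ^ (1 - α) :=
            Real.rpow_add_of_nonneg (norm_nonneg _) hα0 (by linarith)
          _ ≤ _ := by
            gcongr
            linarith
      have e : ‖z‖ ^ (-(5 + α)) = ‖z‖ ^ (1 - α) / ‖z‖ ^ 6 := by
        rw [← Real.rpow_natCast, ← Real.rpow_sub hz']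
        congr 1
        push_cast
        ring
      rw [e]
      calc C / (‖z‖ / 2) ^ 6 * ‖z - z'‖ ≤ C / (‖z‖ / 2) ^ 6 * (‖z - z'‖ ^ α * ‖z‖ ^ (1 - α)) := by
            gcongr
        _ = 2 ^ 6 * C * ‖z - z'‖ ^ α * (‖z‖ ^ (1 - α) / ‖z‖ ^ 6) := by field_simp
        _ ≤ _ := by gcongr; norm_num
    have far : ∀ (z : E) (d : ℝ), z ≠ 0 → ‖z‖ / 2 ≤ d →
        ‖iteratedFDeriv ℝ 5 (rad Real.log a : E → ℝ) z‖ ≤
          6 ^ 6 * C * d ^ α * ‖z‖ ^ (-(5 + α)) := by
      intro z d hz hd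
      have hz' : 0 < ‖z‖ := norm_pos_iff.2 hz
      have hd0 : 0 < d := by linarith
      refine (h a ha z hz 5 (by norm_num) (by norm_num)).trans ?_
      have e : C / ‖z‖ ^ 5 = C * (‖z‖ ^ α * ‖z‖ ^ (-(5 + α))) := by
        rw [← Real.rpow_add hz', div_eq_mul_inv, ← Real.rpow_natCast, ← Real.rpow_neg hz'.le]
        congr 2
        push_cast
        ring
      have h1 : ‖z‖ ^ α ≤ 2 * d ^ α := by
        calc ‖z‖ ^ α ≤ (2 * d) ^ α := Real.rpow_le_rpow hz'.le (by linarith) hα0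
          _ = 2 ^ α * d ^ α := Real.mul_rpow (by norm_num) hd0.le
          _ ≤ 2 ^ (1 : ℝ) * d ^ α := by
            gcongr
            norm_num
          _ = _ := by simp
      rw [e]
      calc C * (‖z‖ ^ α * ‖z‖ ^ (-(5 + α))) ≤ C * ((2 * d ^ α) * ‖z‖ ^ (-(5 + α))) := by gcongr
        _ = 2 * C * d ^ α * ‖z‖ ^ (-(5 + α)) := by ring
        _ ≤ _ := by gcongr; norm_num
    intro z z' hz hz'
    have p1 : 0 ≤ 6 ^ 6 * C * ‖z - z'‖ ^ α * ‖z‖ ^ (-(5 + α)) := by positivity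
    have p2 : 0 ≤ 6 ^ 6 * C * ‖z - z'‖ ^ α * ‖z'‖ ^ (-(5 + α)) := by positivity
    rw [mul_add]
    by_cases h1 : ‖z - z'‖ ≤ ‖z‖ / 2
    · linarith [near z z' hz h1]
    by_cases h2 : ‖z' - z‖ ≤ ‖z'‖ / 2
    · have := near z' z hz' h2
      rw [norm_sub_rev, norm_sub_rev z' z] at this
      linarith
    · rw [norm_sub_rev z' z] at h2
      exact (norm_sub_le _ _).trans
        (add_le_add (far z _ hz (not_le.1 h1).le) (far z' _ hz' (not_le.1 h2).le))

end Pool.Agent.Lib.MP_af5b7f_an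
end
end

-- part Pool.Agent.Lib.MP_af5b7f_an.Potential
section

/-! Estimates for the regularised logarithmic potential of a density. -/

set_option autoImplicit false

open Filter Topology MeasureTheory Set
open scoped ContDiff InnerProductSpace

noncomputable section

namespace Pool.Agent.Lib.MP_af5b7f_an

variable {E : Type} [NormedAddCommGroup E] [InnerProductSpace ℝ E] [FiniteDimensional ℝ E]
  [MeasurableSpace E] [BorelSpace E]

/-- truncated singular kernel -/
def kp (p : ℝ) : E → ℝ := indicator (Metric.ball 0 6) (fun z => ‖z‖ ^ (-p))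

omit [InnerProductSpace ℝ E] [FiniteDimensional ℝ E] [MeasurableSpace E] [BorelSpace E] in
lemma kp_nonneg (p : ℝ) (z : E) : 0 ≤ kp p z :=
  indicator_nonneg (fun _ _ => by positivity) z

omit [InnerProductSpace ℝ E] [FiniteDimensional ℝ E] [MeasurableSpace E] [BorelSpace E] in
lemma kp_of_lt (p : ℝ) {z : E} (hz : ‖z‖ < 6) : kp p z = ‖z‖ ^ (-p) :=
  indicator_of_mem (mem_ball_zero_iff.2 hz) _

lemma integrable_kp (hE : Module.finrank ℝ E = 6) {p : ℝ} (hp : p < 6) :
    Integrable (kp p : E → ℝ) := by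
  unfold kp
  rw [integrable_indicator_iff measurableSet_ball]
  refine integrableOn_ball_of_norm_le_rpow (C := 1) (α := p) (by omega) (by rw [hE]; exact_mod_cast hp)
    (Eventually.of_forall fun z => ?_) (Measurable.aestronglyMeasurable (by fun_prop))
  rw [one_mul, Real.norm_of_nonneg (by positivity)]

lemma integrable_kp_sub (hE : Module.finrank ℝ E = 6) {p : ℝ} (hp : p < 6) (x : E) :
    Integrable (fun y : E => kp p (x - y)) := (integrable_kp hE hp).comp_sub_left x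

lemma integral_kp_sub (p : ℝ) (x : E) : ∫ y : E, kp p (x - y) = ∫ y : E, kp p y :=
  integral_sub_left_eq_self _ _ x

/-- A density: continuous, non-negative, supported in the ball of radius three. -/
structure IsDens (f : E → ℝ) : Prop where
  cont : Continuous f
  nonneg : ∀ y, 0 ≤ f y
  supp : ∀ y, 3 < ‖y‖ → f y = 0

omit [MeasurableSpace E] [BorelSpace E] in
lemma IsDens.compact {f : E → ℝ} (hf : IsDens f) : HasCompactSupport f :=
  HasCompactSupport.intro (isCompact_closedBall 0 3) fun y hy =>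
    hf.supp y (by simpa using hy)

lemma IsDens.integrable {f : E → ℝ} (hf : IsDens f) : Integrable f :=
  hf.cont.integrable_of_hasCompactSupport hf.compact

omit [InnerProductSpace ℝ E] [FiniteDimensional ℝ E] [MeasurableSpace E] [BorelSpace E] in
lemma IsDens.norm_sub_lt {f : E → ℝ} (hf : IsDens f) {x y : E} (hx : ‖x‖ ≤ 2) (hy : f y ≠ 0) :
    ‖x - y‖ ≤ 5 := by
  have : ‖y‖ ≤ 3 := not_lt.1 fun h => hy (hf.supp y h)
  linarith [norm_sub_le x y]

lemma IsDens.integrable_sing (hE : Module.finrank ℝ E = 6) {f : E → ℝ} (hf : IsDens f) {p : ℝ}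
    (hp : p < 6) {x : E} (hx : ‖x‖ ≤ 2) : Integrable (fun y => f y * ‖x - y‖ ^ (-p)) := by
  obtain ⟨M, hM⟩ := hf.cont.bounded_above_of_compact_support hf.compact
  refine ((integrable_kp_sub hE hp x).const_mul M).mono' ?_ (Eventually.of_forall fun y => ?_)
  · have := hf.cont.measurable
    exact Measurable.aestronglyMeasurable (by fun_prop)
  · by_cases hy : f y = 0
    · rw [hy]
      simp only [zero_mul, norm_zero]
      exact mul_nonneg ((norm_nonneg _).trans (hM y)) (kp_nonneg _ _)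
    · rw [kp_of_lt p (by linarith [hf.norm_sub_lt hx hy]), norm_mul,
        Real.norm_of_nonneg (r := ‖x - y‖ ^ (-p)) (by positivity)]
      gcongr
      exact hM y

lemma IsDens.sing_le (hE : Module.finrank ℝ E = 6) {f : E → ℝ} (hf : IsDens f) {p : ℝ}
    (hp0 : 0 ≤ p) (hp : p < 6) {x : E} (hx : ‖x‖ ≤ 2) {d η : ℝ} (hd : 0 < d) (hη : 0 ≤ η)
    (h : ∀ y, ‖x - y‖ < d → f y ≤ η) :
    ∫ y, f y * ‖x - y‖ ^ (-p) ≤ d ^ (-p) * (∫ y, f y) + η * ∫ y : E, kp p y := by
  rw [← integral_kp_sub p x, ← integral_const_mul, ← integral_const_mul, ← integral_add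
    (hf.integrable.const_mul _) ((integrable_kp_sub hE hp x).const_mul _)]
  refine integral_mono (hf.integrable_sing hE hp hx)
    ((hf.integrable.const_mul _).add ((integrable_kp_sub hE hp x).const_mul _)) fun y => ?_
  have h0 := hf.nonneg y
  have h1 : 0 ≤ η * kp p (x - y) := mul_nonneg hη (kp_nonneg _ _)
  have h2 : 0 ≤ d ^ (-p) * f y := by positivity
  simp only
  by_cases hy : f y = 0
  · rw [hy]; linarith
  by_cases hxy : ‖x - y‖ < d
  · rw [kp_of_lt p (by linarith [hf.norm_sub_lt hx hy])]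
    have : f y * ‖x - y‖ ^ (-p) ≤ η * ‖x - y‖ ^ (-p) := by gcongr; exact h y hxy
    linarith
  · have : ‖x - y‖ ^ (-p) ≤ d ^ (-p) :=
      Real.rpow_le_rpow_of_nonpos hd (not_lt.1 hxy) (by linarith)
    have : f y * ‖x - y‖ ^ (-p) ≤ f y * d ^ (-p) := by gcongr
    linarith

lemma ae_sub_ne (hE : Module.finrank ℝ E = 6) (x : E) : ∀ᵐ y : E, x - y ≠ 0 := by
  have : Nontrivial E := Module.nontrivial_of_finrank_pos (R := ℝ) (by omega)
  have h : ∀ᵐ y : E, y ∉ ({x} : Set E) := compl_mem_ae_iff.2 (measure_singleton x)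
  filter_upwards [h] with y hy
  exact sub_ne_zero.2 fun h => hy h.symm

lemma potential_bounds (hE : Module.finrank ℝ E = 6) : ∃ C : ℝ, 0 < C ∧ ∀ a : ℝ, 0 < a →
    ∀ α : ℝ, 0 ≤ α → α < 1 → ∀ f : E → ℝ, IsDens f →
    (∀ x : E, ‖x‖ ≤ 2 → ∀ j, 1 ≤ j → j ≤ 5 →
      ‖iteratedFDeriv ℝ j (conv f (rad Real.log a)) x‖ ≤
        C * ∫ y, f y * ‖x - y‖ ^ (-(5 + α))) ∧
    (∀ x x' : E, ‖x‖ ≤ 2 → ‖x'‖ ≤ 2 →
      ‖iteratedFDeriv ℝ 5 (conv f (rad Real.log a)) x -
        iteratedFDeriv ℝ 5 (conv f (rad Real.log a)) x'‖ ≤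
        C * ‖x - x'‖ ^ α * ((∫ y, f y * ‖x - y‖ ^ (-(5 + α))) +
          ∫ y, f y * ‖x' - y‖ ^ (-(5 + α)))) := by
  obtain ⟨C, hC, h⟩ := logK_holder (E := E)
  refine ⟨C, hC, fun a ha α hα0 hα1 f hf => ⟨fun x hx j hj1 hj => ?_, fun x x' hx hx' => ?_⟩⟩
  · rw [iteratedFDeriv_conv hf.cont hf.compact j (contDiff_logK ha), ← integral_const_mul]
    refine norm_integral_le_of_norm_le
      ((hf.integrable_sing hE (by linarith) hx).const_mul C) ?_
    filter_upwards [ae_sub_ne hE x] with y hy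
    by_cases hy0 : f y = 0
    · simp [hy0]
    · rw [norm_smul, Real.norm_of_nonneg (hf.nonneg y), mul_left_comm]
      exact mul_le_mul_of_nonneg_left ((h a ha α hα0 hα1.le).1 _ hy
        (by linarith [hf.norm_sub_lt hx hy0]) j hj1 hj) (hf.nonneg y)
  · have hc : Continuous (iteratedFDeriv ℝ 5 (rad Real.log a : E → ℝ)) :=
      (contDiff_logK ha).continuous_iteratedFDeriv (nat_le_infty 5)
    have i1 := hf.integrable_sing hE (p := 5 + α) (by linarith) hx
    have i2 := hf.integrable_sing hE (p := 5 + α) (by linarith) hx'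
    rw [iteratedFDeriv_conv hf.cont hf.compact 5 (contDiff_logK ha),
      iteratedFDeriv_conv hf.cont hf.compact 5 (contDiff_logK ha),
      ← integral_sub (integrable_conv hf.cont hf.compact hc x)
        (integrable_conv hf.cont hf.compact hc x'), ← integral_add i1 i2, ← integral_const_mul]
    refine norm_integral_le_of_norm_le ((i1.add i2).const_mul _) ?_
    filter_upwards [ae_sub_ne hE x, ae_sub_ne hE x'] with y hy hy'
    rw [← smul_sub, norm_smul, Real.norm_of_nonneg (hf.nonneg y), ← mul_add, mul_left_comm]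
    have := (h a ha α hα0 hα1.le).2 _ _ hy hy'
    rw [sub_sub_sub_cancel_right] at this
    exact mul_le_mul_of_nonneg_left this (hf.nonneg y)

/-- the profile of the approximate identity -/
def bump (z : E) : ℝ := 7680 / (1 + ‖z‖ ^ 2) ^ 6

omit [InnerProductSpace ℝ E] [FiniteDimensional ℝ E] [MeasurableSpace E] [BorelSpace E] in
lemma bump_pos (z : E) : 0 < bump z := by unfold bump; positivity

omit [InnerProductSpace ℝ E] [FiniteDimensional ℝ E] [MeasurableSpace E] [BorelSpace E] in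
lemma continuous_bump : Continuous (bump : E → ℝ) :=
  continuous_const.div (by fun_prop) fun z => by positivity

lemma integrable_bump (hE : Module.finrank ℝ E = 6) : Integrable (bump : E → ℝ) := by
  have := (integrable_rpow_neg_one_add_norm_sq (E := E) (μ := volume) (r := 12)
    (by rw [hE]; norm_num)).const_mul 7680
  refine this.congr (Eventually.of_forall fun z => ?_)
  simp only [bump]
  rw [show (-12 / 2 : ℝ) = -((6 : ℕ) : ℝ) by norm_num, Real.rpow_neg (by positivity),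
    Real.rpow_natCast, div_eq_mul_inv]

variable (E) in
/-- the normalising constant -/
def bigL : ℝ := ∫ z : E, bump z

lemma bigL_pos (hE : Module.finrank ℝ E = 6) : 0 < bigL E :=
  integral_pos_of_integrable_nonneg_nonzero (x := 0) continuous_bump (integrable_bump hE)
    (fun z => (bump_pos z).le) (bump_pos _).ne'

lemma conv_bump (hE : Module.finrank ℝ E = 6) (f : E → ℝ) {δ : ℝ} (hδ : 0 < δ) (x : E) :
    conv f (rad (fun t => 7680 * (δ ^ 2) ^ 3 / t ^ 6) (δ ^ 2)) x =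
      ∫ z, bump z * f (x - δ • z) := by
  unfold conv
  rw [← integral_sub_left_eq_self _ volume x]
  simp only [sub_sub_cancel]
  have := Measure.integral_comp_smul_of_nonneg volume
    (fun y : E => f (x - y) * rad (fun t => 7680 * (δ ^ 2) ^ 3 / t ^ 6) (δ ^ 2) y) δ (hR := hδ.le)
  rw [hE, smul_eq_mul, eq_inv_mul_iff_mul_eq₀ (by positivity), ← integral_const_mul] at this
  rw [← this]
  refine integral_congr_ae (Eventually.of_forall fun z => ?_)
  simp only [rad, bump, norm_smul, Real.norm_of_nonneg hδ.le]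
  have e : δ ^ 2 + (δ * ‖z‖) ^ 2 = δ ^ 2 * (1 + ‖z‖ ^ 2) := by ring
  rw [e]
  field_simp

lemma approx_id (hE : Module.finrank ℝ E = 6) {f : E → ℝ} (hf : IsDens f) {η : ℝ} (hη : 0 < η) :
    ∀ᶠ δ in 𝓝[>] (0 : ℝ), ∀ x : E, ‖x‖ ≤ 2 →
      |(bigL E)⁻¹ * lapPow 3 (conv f (rad Real.log (δ ^ 2))) x - f x| ≤ η := by
  obtain ⟨M, hM⟩ := hf.cont.bounded_above_of_compact_support hf.compact
  have hL := bigL_pos hE
  have hc : Continuous (fun p : ℝ × E => ∫ z, bump z * f (p.2 - p.1 • z)) := by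
    refine continuous_of_dominated (bound := fun z => bump z * M) (fun p => ?_) (fun p => ?_)
      ((integrable_bump hE).mul_const M) (Eventually.of_forall fun z => ?_)
    · exact (continuous_bump.mul (hf.cont.comp (by fun_prop))).aestronglyMeasurable
    · refine Eventually.of_forall fun z => ?_
      rw [norm_mul, Real.norm_of_nonneg (bump_pos z).le]
      exact mul_le_mul_of_nonneg_left (hM _) (bump_pos z).le
    · exact continuous_const.mul (hf.cont.comp (by fun_prop))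
  have hc2 : Continuous (fun p : ℝ × E =>
      |(bigL E)⁻¹ * (∫ z, bump z * f (p.2 - p.1 • z)) - f p.2|) :=
    ((continuous_const.mul hc).sub (hf.cont.comp continuous_snd)).abs
  have key : ∀ᶠ δ in 𝓝 (0 : ℝ), ∀ x ∈ Metric.closedBall (0 : E) 2,
      |(bigL E)⁻¹ * (∫ z, bump z * f (x - δ • z)) - f x| < η := by
    refine (isCompact_closedBall (0 : E) 2).eventually_forall_of_forall_eventually
      (P := fun δ x => |(bigL E)⁻¹ * (∫ z, bump z * f (x - δ • z)) - f x| < η) fun x _ => ?_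
    refine hc2.continuousAt.eventually_lt continuousAt_const ?_
    simp only [zero_smul, sub_zero]
    rw [integral_mul_const, ← bigL, inv_mul_cancel_left₀ hL.ne']
    simpa using hη
  filter_upwards [nhdsWithin_le_nhds key, self_mem_nhdsWithin] with δ hδ hδ0 x hx
  have hδ0' : 0 < δ := hδ0
  rw [lapPow_conv hf.cont hf.compact 3 (contDiff_logK (by positivity)),
    lap3_log hE (by positivity), conv_bump hE f hδ0']
  exact (hδ x (mem_closedBall_zero_iff.2 hx)).le

end Pool.Agent.Lib.MP_af5b7f_an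
end
end

-- part Pool.Agent.Lib.MP_af5b7f_an.Poly
section

/-! Polynomial functions of low degree and the polynomial `phi`. -/

set_option autoImplicit false

open Filter Topology MeasureTheory Set
open scoped ContDiff InnerProductSpace

noncomputable section

namespace Pool.Agent.Lib.MP_af5b7f_an

section Deg

variable {E : Type} [NormedAddCommGroup E] [InnerProductSpace ℝ E]

/-- `Deg d f`: all derivatives of order `d` of the smooth function `f` vanish. -/
def Deg : ℕ → (E → ℝ) → Prop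
  | 0, f => f = fun _ => 0
  | d + 1, f => ContDiff ℝ ∞ f ∧ ∀ v, Deg d (dd f v)

lemma Deg.contDiff : ∀ {d : ℕ} {f : E → ℝ}, Deg d f → ContDiff ℝ ∞ f
  | 0, _, h => by rw [show _ = _ from h]; exact contDiff_const
  | _ + 1, _, h => h.1

lemma dd_const (c : ℝ) (v : E) : dd (fun _ : E => c) v = fun _ => 0 := by
  funext z; simp [dd]

lemma dd_add {f g : E → ℝ} (hf : ContDiff ℝ ∞ f) (hg : ContDiff ℝ ∞ g) (v : E) :
    dd (fun x => f x + g x) v = fun x => dd f v x + dd g v x := by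
  funext z
  unfold dd
  rw [fderiv_fun_add (hf.differentiable (by simp) z) (hg.differentiable (by simp) z)]
  rfl

lemma dd_mul {f g : E → ℝ} (hf : ContDiff ℝ ∞ f) (hg : ContDiff ℝ ∞ g) (v : E) :
    dd (fun x => f x * g x) v = fun x => f x * dd g v x + dd f v x * g x := by
  funext z
  unfold dd
  rw [fderiv_fun_mul (hf.differentiable (by simp) z) (hg.differentiable (by simp) z)]
  simp [mul_comm]

lemma deg_zero : ∀ d : ℕ, Deg d (fun _ : E => (0 : ℝ))
  | 0 => rfl
  | d + 1 => ⟨contDiff_const, fun v => by rw [dd_const]; exact deg_zero d⟩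

lemma Deg.succ : ∀ {d : ℕ} {f : E → ℝ}, Deg d f → Deg (d + 1) f
  | 0, _, h => by rw [show _ = _ from h]; exact deg_zero 1
  | _ + 1, _, h => ⟨h.1, fun v => (h.2 v).succ⟩

lemma Deg.mono {d e : ℕ} {f : E → ℝ} (h : Deg d f) (hde : d ≤ e) : Deg e f := by
  induction hde with
  | refl => exact h
  | step _ ih => exact ih.succ

lemma deg_const (c : ℝ) : Deg 1 (fun _ : E => c) :=
  ⟨contDiff_const, fun v => by rw [dd_const]; exact deg_zero 0⟩

lemma Deg.add : ∀ {d : ℕ} {f g : E → ℝ}, Deg d f → Deg d g → Deg d (fun x => f x + g x)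
  | 0, _, _, hf, hg => by
    rw [show _ = _ from hf, show _ = _ from hg]
    funext x
    simp
  | _ + 1, _, _, hf, hg => ⟨hf.1.add hg.1, fun v => by
    rw [dd_add hf.1 hg.1]; exact (hf.2 v).add (hg.2 v)⟩

lemma deg_mul_aux : ∀ (n a b : ℕ) (f g : E → ℝ), a + b = n + 1 → Deg a f → Deg b g →
    Deg n (fun x => f x * g x) := by
  intro n
  induction n with
  | zero =>
    intro a b f g hab hf hg
    rcases a with _ | a
    · rw [show _ = _ from hf]; funext x; simp
    · obtain rfl : b = 0 := by omega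
      rw [show _ = _ from hg]; funext x; simp
  | succ n ih =>
    intro a b f g hab hf hg
    rcases a with _ | a
    · rw [show _ = _ from hf]; simpa using deg_zero (n + 1)
    rcases b with _ | b
    · rw [show _ = _ from hg]; simpa using deg_zero (n + 1)
    refine ⟨hf.1.mul hg.1, fun v => ?_⟩
    rw [dd_mul hf.1 hg.1]
    exact (ih (a + 1) b _ _ (by omega) hf (hg.2 v)).add (ih a (b + 1) _ _ (by omega) (hf.2 v) hg)

lemma Deg.mul {a b : ℕ} {f g : E → ℝ} (hf : Deg (a + 1) f) (hg : Deg (b + 1) g) :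
    Deg (a + b + 1) (fun x => f x * g x) :=
  deg_mul_aux _ _ _ f g (by omega) hf hg

lemma Deg.sq {a : ℕ} {f : E → ℝ} (hf : Deg (a + 1) f) : Deg (a + a + 1) (fun x => f x ^ 2) := by
  simp_rw [pow_two]
  exact hf.mul hf

lemma Deg.const_mul {a : ℕ} {f : E → ℝ} (c : ℝ) (hf : Deg (a + 1) f) :
    Deg (a + 1) (fun x => c * f x) := by
  have := (deg_const c).mul hf
  rwa [zero_add] at this

lemma Deg.sub {a : ℕ} {f g : E → ℝ} (hf : Deg (a + 1) f) (hg : Deg (a + 1) g) :
    Deg (a + 1) (fun x => f x - g x) := by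
  have := hf.add (hg.const_mul (-1))
  simpa [sub_eq_add_neg] using this

lemma deg_clm (l : E →L[ℝ] ℝ) : Deg 2 (fun x => l x) :=
  ⟨l.contDiff, fun v => by
    have : dd (fun x => l x) v = fun _ => l v := by
      funext z; unfold dd; rw [show (fun x => l x) = l from rfl, l.fderiv]
    rw [this]; exact deg_const _⟩

lemma Deg.sum {ι : Type} (s : Finset ι) {d : ℕ} {f : ι → E → ℝ} (h : ∀ i, Deg d (f i)) :
    Deg d (fun x => ∑ i ∈ s, f i x) := by
  classical
  induction s using Finset.induction_on with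
  | empty => simpa using deg_zero d
  | insert i s hi ih => simp_rw [Finset.sum_insert hi]; exact (h i).add ih

variable [FiniteDimensional ℝ E]

lemma Deg.lap {d : ℕ} {f : E → ℝ} (h : Deg (d + 2) f) :
    Deg d (Laplacian.laplacian f : E → ℝ) := by
  rw [lap_eq_sum (stdOrthonormalBasis ℝ E) h.contDiff]
  exact Deg.sum _ fun i => (h.2 _).2 _

lemma Deg.lapPow_three {f : E → ℝ} (h : Deg 6 f) : lapPow 3 f = fun _ => 0 :=
  h.lap.lap.lap

end Deg

/-- Euclidean six-space -/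
abbrev E6 : Type := EuclideanSpace ℝ (Fin 6)

lemma finrank_E6 : Module.finrank ℝ E6 = 6 := by simp

def rho (x : E6) : ℝ := x 0 ^ 2 + x 1 ^ 2
def tau (x : E6) : ℝ := x 2 ^ 2 + x 3 ^ 2 + x 4 ^ 2 + x 5 ^ 2
def psi (x : E6) : ℝ := (x 2 - 1) ^ 2 + x 3 ^ 2 + x 4 ^ 2 + x 5 ^ 2

/-- the polynomial vanishing on a small circle and at the point `e₂` -/
def phi (ε : ℝ) (x : E6) : ℝ :=
  (rho x - ε ^ 2 * (1 - x 2)) ^ 2 + tau x * psi x + x 2 ^ 2 * rho x

/-- the point `e₂` -/
def pe : E6 := EuclideanSpace.single 2 1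

/-- the direction `e₃` -/
def pd : E6 := EuclideanSpace.single 3 1

lemma deg_coord (i : Fin 6) : Deg 2 (fun x : E6 => x i) :=
  deg_clm (EuclideanSpace.proj (𝕜 := ℝ) i)

lemma deg_rho : Deg 3 rho := (deg_coord 0).sq.add (deg_coord 1).sq

lemma deg_tau : Deg 3 tau :=
  (((deg_coord 2).sq.add (deg_coord 3).sq).add (deg_coord 4).sq).add (deg_coord 5).sq

lemma deg_psi : Deg 3 psi :=
  (((((deg_coord 2).sub ((deg_const 1).succ)).sq).add (deg_coord 3).sq).add
    (deg_coord 4).sq).add (deg_coord 5).sq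

lemma deg_phi (ε : ℝ) : Deg 5 (phi ε) :=
  (((deg_rho.sub ((((deg_const 1).succ.sub (deg_coord 2)).const_mul _).succ)).sq).add
    (deg_tau.mul deg_psi)).add ((deg_coord 2).sq.mul deg_rho)

lemma contDiff_phi (ε : ℝ) : ContDiff ℝ ∞ (phi ε) := (deg_phi ε).contDiff

lemma continuous_phi (ε : ℝ) : Continuous (phi ε) := (contDiff_phi ε).continuous

lemma lapPow_phi (ε : ℝ) : lapPow 3 (phi ε) = fun _ => 0 := (deg_phi ε).succ.lapPow_three

lemma rho_nonneg (x : E6) : 0 ≤ rho x := by unfold rho; positivity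
lemma tau_nonneg (x : E6) : 0 ≤ tau x := by unfold tau; positivity
lemma psi_nonneg (x : E6) : 0 ≤ psi x := by unfold psi; positivity

lemma phi_nonneg (ε : ℝ) (x : E6) : 0 ≤ phi ε x := by
  have := rho_nonneg x
  have := tau_nonneg x
  have := psi_nonneg x
  unfold phi
  positivity

lemma norm_sq_E6 (x : E6) : ‖x‖ ^ 2 = rho x + tau x := by
  rw [EuclideanSpace.norm_sq_eq, Fin.sum_univ_six]
  simp only [Real.norm_eq_abs, sq_abs, rho, tau]
  ring

lemma norm_sub_pe_sq (x : E6) : ‖x - pe‖ ^ 2 = rho x + psi x := by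
  rw [norm_sq_E6]
  simp [rho, tau, psi, pe]

lemma norm_pe : ‖pe‖ = 1 := by simp [pe]

lemma norm_pd : ‖pd‖ = 1 := by simp [pd]

lemma phi_pe (ε : ℝ) : phi ε pe = 0 := by simp [phi, rho, tau, psi, pe]

/-- A point where `phi` is small lies near the circle or near `e₂`. -/
lemma phi_small {ε θ : ℝ} {x : E6} (hθ : θ ≤ 1 / 16) (h : phi ε x < θ) :
    (tau x < 4 * θ ∧ (rho x - ε ^ 2 * (1 - x 2)) ^ 2 < θ) ∨ ‖x - pe‖ ^ 2 < 8 * θ := by
  have h1 := rho_nonneg x
  have h2 := tau_nonneg x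
  have h3 := psi_nonneg x
  have h4 : 0 ≤ tau x * psi x := mul_nonneg h2 h3
  have h5 : 0 ≤ x 2 ^ 2 * rho x := by positivity
  have h6 : 0 ≤ (rho x - ε ^ 2 * (1 - x 2)) ^ 2 := by positivity
  have h7 : 1 / 2 ≤ tau x + psi x := by
    unfold tau psi
    nlinarith [sq_nonneg (x 2 - 1 / 2), sq_nonneg (x 3), sq_nonneg (x 4), sq_nonneg (x 5)]
  unfold phi at h
  by_cases hp : 1 / 4 ≤ psi x
  · left
    exact ⟨by nlinarith, by linarith⟩
  · right
    have h8 : psi x < 4 * θ := by nlinarith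
    have h9 : (x 2 - 1) ^ 2 ≤ psi x := by
      unfold psi
      nlinarith [sq_nonneg (x 3), sq_nonneg (x 4), sq_nonneg (x 5)]
    have h10 : 1 / 2 ≤ x 2 := by nlinarith
    have h11 : 1 / 4 ≤ x 2 ^ 2 := by nlinarith
    rw [norm_sub_pe_sq]
    nlinarith

lemma phi_zero_eq_zero {x : E6} (h : phi 0 x = 0) : x = 0 ∨ x = pe := by
  by_contra hc
  push Not at hc
  have h1 : 0 < ‖x‖ ^ 2 := pow_pos (norm_pos_iff.2 hc.1) 2
  have h2 : 0 < ‖x - pe‖ ^ 2 := pow_pos (norm_pos_iff.2 (sub_ne_zero.2 hc.2)) 2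
  rw [norm_sq_E6] at h1
  rw [norm_sub_pe_sq] at h2
  have h3 := rho_nonneg x
  have h4 := tau_nonneg x
  have h5 := psi_nonneg x
  have h6 : 0 ≤ tau x * psi x := mul_nonneg h4 h5
  have h7 : 0 ≤ x 2 ^ 2 * rho x := by positivity
  simp only [phi, ne_eq, OfNat.ofNat_ne_zero, not_false_eq_true, zero_pow, zero_mul,
    sub_zero] at h
  have h8 : rho x ^ 2 = 0 := by nlinarith [sq_nonneg (rho x)]
  have h9 : rho x = 0 := by simpa using h8
  have h10 : 0 < tau x * psi x := mul_pos (by linarith) (by linarith)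
  nlinarith

/-- second difference in the direction `e₃` -/
lemma phi_second_diff (ε r : ℝ) (x : E6) :
    r ^ 2 ≤ phi ε (x + r • pd) + phi ε (x - r • pd) - 2 * phi ε x := by
  simp [phi, rho, tau, psi, pd]
  nlinarith [sq_nonneg (x 2 - 1 / 2), sq_nonneg (x 3 * r), sq_nonneg (x 4 * r),
    sq_nonneg (x 5 * r), sq_nonneg (r ^ 2), mul_nonneg (sq_nonneg r) (sq_nonneg (x 2 - 1 / 2))]

lemma phi_box {ε t : ℝ} (hε0 : 0 ≤ ε) (hε : ε ≤ 1 / 2) (ht0 : 0 ≤ t) (hh : t ≤ 1 / 2) {x : E6}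
    (h0 : |x 0 - ε| ≤ t ^ 2) (h1 : |x 1| ≤ t) (h2 : |x 2| ≤ t ^ 2) (h3 : |x 3| ≤ t ^ 2)
    (h4 : |x 4| ≤ t ^ 2) (h5 : |x 5| ≤ t ^ 2) : phi ε x ≤ 50 * t ^ 4 ∧ ‖x‖ ≤ 2 := by
  have ht : t ≤ 1 := by linarith
  have ht2 : t ^ 2 ≤ 1 := pow_le_one₀ ht0 ht
  have ht2' : 0 ≤ t ^ 2 := by positivity
  have s1 : x 1 ^ 2 ≤ t ^ 2 := by rw [← sq_abs]; gcongr
  have s2 : x 2 ^ 2 ≤ t ^ 4 := by rw [← sq_abs, show t ^ 4 = (t ^ 2) ^ 2 by ring]; gcongr
  have s3 : x 3 ^ 2 ≤ t ^ 4 := by rw [← sq_abs, show t ^ 4 = (t ^ 2) ^ 2 by ring]; gcongr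
  have s4 : x 4 ^ 2 ≤ t ^ 4 := by rw [← sq_abs, show t ^ 4 = (t ^ 2) ^ 2 by ring]; gcongr
  have s5 : x 5 ^ 2 ≤ t ^ 4 := by rw [← sq_abs, show t ^ 4 = (t ^ 2) ^ 2 by ring]; gcongr
  have ht4 : t ^ 4 ≤ 1 := pow_le_one₀ ht0 ht
  have ht4' : 0 ≤ t ^ 4 := by positivity
  obtain ⟨a0, b0⟩ := abs_le.1 h0
  obtain ⟨a2, b2⟩ := abs_le.1 h2
  have hε2 : ε ^ 2 ≤ 1 / 4 := by nlinarith
  have q1 : |rho x - ε ^ 2 * (1 - x 2)| ≤ 4 * t ^ 2 := by
    have e : rho x - ε ^ 2 * (1 - x 2) = (x 0 - ε) * (x 0 + ε) + x 1 ^ 2 + ε ^ 2 * x 2 := by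
      unfold rho; ring
    have k1 : |(x 0 - ε) * (x 0 + ε)| ≤ t ^ 2 * 2 := by
      rw [abs_mul]
      gcongr
      rw [abs_le]; constructor <;> linarith
    have k2 : |ε ^ 2 * x 2| ≤ 1 * t ^ 2 := by
      rw [abs_mul]
      gcongr
      rw [abs_of_nonneg (by positivity)]; linarith
    rw [e]
    obtain ⟨k1, k1'⟩ := abs_le.1 k1
    obtain ⟨k2, k2'⟩ := abs_le.1 k2
    rw [abs_le]; constructor <;> nlinarith [sq_nonneg (x 1)]
  have q2 : (rho x - ε ^ 2 * (1 - x 2)) ^ 2 ≤ 16 * t ^ 4 := by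
    rw [← sq_abs, show 16 * t ^ 4 = (4 * t ^ 2) ^ 2 by ring]; gcongr
  have q3 : tau x ≤ 4 * t ^ 4 := by unfold tau; linarith
  have q4 : psi x ≤ 7 := by unfold psi; nlinarith
  have q5 : rho x ≤ 5 := by unfold rho; nlinarith
  have q6 : tau x * psi x ≤ 4 * t ^ 4 * 7 :=
    mul_le_mul q3 q4 (psi_nonneg x) (by positivity)
  have q7 : x 2 ^ 2 * rho x ≤ t ^ 4 * 5 := mul_le_mul s2 q5 (rho_nonneg x) ht4'
  have q8 : phi ε x ≤ 50 * t ^ 4 := by unfold phi; linarith
  refine ⟨q8, ?_⟩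
  have ht5 : t ^ 2 ≤ 1 / 4 := by nlinarith
  have ht6 : t ^ 4 ≤ 1 / 16 := by nlinarith
  have s0 : x 0 ^ 2 ≤ 1 := by nlinarith
  have : ‖x‖ ^ 2 ≤ 2 ^ 2 := by
    rw [norm_sq_E6]
    unfold rho
    linarith
  exact (abs_le_of_sq_le_sq' this (by norm_num)).2

lemma phi_sub (ε : ℝ) : phi ε = fun x => phi 0 x +
    (ε ^ 2 * (-2 * (rho x * (1 - x 2))) + ε ^ 4 * (1 - x 2) ^ 2) := by
  funext x
  unfold phi
  ring

end Pool.Agent.Lib.MP_af5b7f_an
end
end

-- part Pool.Agent.Lib.MP_af5b7f_an.Circle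
section

/-! Rotations of the first two coordinates and the circle average of the logarithmic kernel. -/

set_option autoImplicit false

open Filter Topology MeasureTheory Set
open scoped ContDiff InnerProductSpace Real

noncomputable section

namespace Pool.Agent.Lib.MP_af5b7f_an

/-- rotation of the first two coordinates -/
def rotF (θ : ℝ) (y : E6) : E6 :=
  WithLp.toLp 2 ![Real.cos θ * y 0 - Real.sin θ * y 1, Real.sin θ * y 0 + Real.cos θ * y 1,
    y 2, y 3, y 4, y 5]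

@[simp] lemma rotF_0 (θ : ℝ) (y : E6) : rotF θ y 0 = Real.cos θ * y 0 - Real.sin θ * y 1 := rfl
@[simp] lemma rotF_1 (θ : ℝ) (y : E6) : rotF θ y 1 = Real.sin θ * y 0 + Real.cos θ * y 1 := rfl
@[simp] lemma rotF_2 (θ : ℝ) (y : E6) : rotF θ y 2 = y 2 := rfl
@[simp] lemma rotF_3 (θ : ℝ) (y : E6) : rotF θ y 3 = y 3 := rfl
@[simp] lemma rotF_4 (θ : ℝ) (y : E6) : rotF θ y 4 = y 4 := rfl
@[simp] lemma rotF_5 (θ : ℝ) (y : E6) : rotF θ y 5 = y 5 := rfl

lemma rho_rotF (θ : ℝ) (y : E6) : rho (rotF θ y) = rho y := by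
  simp only [rho, rotF_0, rotF_1]
  linear_combination (y 0 ^ 2 + y 1 ^ 2) * Real.sin_sq_add_cos_sq θ

lemma tau_rotF (θ : ℝ) (y : E6) : tau (rotF θ y) = tau y := rfl

lemma psi_rotF (θ : ℝ) (y : E6) : psi (rotF θ y) = psi y := rfl

lemma tau_sub_rotF (θ : ℝ) (x y : E6) : tau (x - rotF θ y) = tau (x - y) := rfl

lemma norm_rotF (θ : ℝ) (y : E6) : ‖rotF θ y‖ = ‖y‖ := by
  have : ‖rotF θ y‖ ^ 2 = ‖y‖ ^ 2 := by rw [norm_sq_E6, norm_sq_E6, rho_rotF, tau_rotF]
  exact (pow_left_inj₀ (norm_nonneg _) (norm_nonneg _) two_ne_zero).1 this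

lemma phi_rotF (ε θ : ℝ) (y : E6) : phi ε (rotF θ y) = phi ε y := by
  simp only [phi, rho_rotF, tau_rotF, psi_rotF, rotF_2]

/-- the rotation as a linear isometry -/
def rotL (θ : ℝ) : E6 →ₗᵢ[ℝ] E6 where
  toFun := rotF θ
  map_add' x y := by
    ext i
    fin_cases i <;> simp <;> ring
  map_smul' c x := by
    ext i
    fin_cases i <;> simp <;> ring
  norm_map' := norm_rotF θ

lemma integral_rotF (θ : ℝ) (g : E6 → ℝ) : ∫ y, g (rotF θ y) = ∫ y, g y := by
  have h := ((rotL θ).toLinearIsometryEquiv rfl).measurePreserving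
  exact h.integral_comp
    ((rotL θ).toLinearIsometryEquiv rfl).toHomeomorph.measurableEmbedding g

lemma continuous_rotF : Continuous (fun p : ℝ × E6 => rotF p.1 p.2) := by
  unfold rotF
  refine (PiLp.continuous_toLp 2 _).comp (continuous_pi fun i => ?_)
  fin_cases i <;> simp <;> fun_prop

/-- larger root of `q² - A q + P = 0` -/
def qq (A P : ℝ) : ℝ := (A + √(A ^ 2 - 4 * P)) / 2

lemma qq_ge (A P : ℝ) : A / 2 ≤ qq A P := by
  unfold qq
  linarith [Real.sqrt_nonneg (A ^ 2 - 4 * P)]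

lemma qq_le {A P : ℝ} (hA : 0 ≤ A) (hP : 0 ≤ P) : qq A P ≤ A := by
  unfold qq
  have : √(A ^ 2 - 4 * P) ≤ A := Real.sqrt_le_iff.2 ⟨hA, by linarith⟩
  linarith

lemma qq_eq {A P : ℝ} (h : 4 * P ≤ A ^ 2) : qq A P ^ 2 - A * qq A P + P = 0 := by
  unfold qq
  have := Real.sq_sqrt (show 0 ≤ A ^ 2 - 4 * P by linarith)
  linear_combination (1 / 4) * this

lemma continuous_qq : Continuous (fun p : ℝ × ℝ => qq p.1 p.2) := by
  unfold qq
  fun_prop

/-- the circle average of the kernel -/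
def Hh (x : E6) (σ T a : ℝ) : ℝ := Real.log (qq (rho x + σ + T + a) (rho x * σ))

lemma circle_avg {a : ℝ} (ha : 0 < a) (x y : E6) :
    ∫ θ in (0 : ℝ)..2 * π, rad Real.log a (x - rotF θ y) =
      2 * π * Hh x (rho y) (tau (x - y)) a := by
  have h1 := rho_nonneg x
  have h2 := rho_nonneg y
  have h3 := tau_nonneg (x - y)
  set A := rho x + rho y + tau (x - y) + a with hA
  set q := qq A (rho x * rho y) with hq
  have hA0 : 0 < A := by linarith
  have hAP : 4 * (rho x * rho y) < A ^ 2 := by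
    have : (rho x + rho y) ^ 2 < A ^ 2 := by
      gcongr
      linarith
    nlinarith [sq_nonneg (rho x - rho y)]
  have hq1 : A / 2 ≤ q := qq_ge _ _
  have hq0 : 0 < q := by linarith
  have hq2 : q ^ 2 - A * q + rho x * rho y = 0 := qq_eq hAP.le
  set c : ℂ := ⟨(x 0 * y 0 + x 1 * y 1) / q, (x 1 * y 0 - x 0 * y 1) / q⟩ with hc
  have hc2 : ‖c‖ ^ 2 = rho x * rho y / q ^ 2 := by
    rw [Complex.sq_norm, Complex.normSq_apply]
    simp only [hc, rho]
    field_simp
    ring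
  have hc1 : ‖c‖ < 1 := by
    have : ‖c‖ ^ 2 < 1 ^ 2 := by
      rw [hc2, div_lt_iff₀ (by positivity)]
      nlinarith
    exact lt_of_pow_lt_pow_left₀ 2 (by norm_num) this
  have hne : ∀ θ, circleMap 0 1 θ - c ≠ 0 := by
    intro θ h
    rw [sub_eq_zero] at h
    have := congrArg norm h
    simp at this
    linarith
  have e : ∀ θ, rad Real.log a (x - rotF θ y) =
      Real.log q + 2 * Real.log ‖circleMap 0 1 θ - c‖ := by
    intro θ
    have hn : 0 < ‖circleMap 0 1 θ - c‖ := norm_pos_iff.2 (hne θ)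
    rw [show (2 : ℝ) = ((2 : ℕ) : ℝ) by norm_num, ← Real.log_pow,
      ← Real.log_mul hq0.ne' (by positivity)]
    unfold rad
    congr 1
    rw [norm_sq_E6, tau_sub_rotF, Complex.sq_norm, Complex.normSq_apply]
    have e0 : (circleMap 0 1 θ - c).re = Real.cos θ - (x 0 * y 0 + x 1 * y 1) / q := by
      simp [circleMap, hc, Complex.exp_ofReal_mul_I_re]
    have e1 : (circleMap 0 1 θ - c).im = Real.sin θ - (x 1 * y 0 - x 0 * y 1) / q := by
      simp [circleMap, hc, Complex.exp_ofReal_mul_I_im]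
    rw [e0, e1]
    have e2 : rho (x - rotF θ y) = (x 0 - (Real.cos θ * y 0 - Real.sin θ * y 1)) ^ 2 +
      (x 1 - (Real.sin θ * y 0 + Real.cos θ * y 1)) ^ 2 := rfl
    rw [e2]
    have hT : tau (x - y) = A - rho x - rho y - a := by rw [hA]; ring
    rw [hT]
    unfold rho at hq2 ⊢
    have hs := Real.sin_sq_add_cos_sq θ
    field_simp
    linear_combination (-1) * hq2 + (q * (y 0 ^ 2 + y 1 ^ 2) - q ^ 2) * hs
  simp_rw [e]
  have hcont : Continuous (fun θ : ℝ => Real.log ‖circleMap 0 1 θ - c‖) :=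
    Continuous.log (by fun_prop) fun θ => norm_ne_zero_iff.2 (hne θ)
  have h0 := circleAverage_log_norm_sub_const₀ hc1
  rw [Real.circleAverage_def, smul_eq_mul, mul_eq_zero] at h0
  have h0' := h0.resolve_left (by positivity)
  rw [intervalIntegral.integral_add intervalIntegrable_const
    ((hcont.const_mul 2).intervalIntegrable _ _), intervalIntegral.integral_const_mul, h0']
  simp [Hh, hq, hA]

lemma conv_eq_avg {f : E6 → ℝ} (hf : IsDens f) (hrot : ∀ θ y, f (rotF θ y) = f y) {a : ℝ}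
    (ha : 0 < a) (x : E6) :
    conv f (rad Real.log a) x = ∫ y, f y * Hh x (rho y) (tau (x - y)) a := by
  have hG : Continuous (rad Real.log a : E6 → ℝ) := (contDiff_logK ha).continuous
  have h1 : ∀ θ, conv f (rad Real.log a) x = ∫ y, f y * rad Real.log a (x - rotF θ y) := by
    intro θ
    unfold conv
    rw [← integral_rotF θ]
    simp_rw [hrot]
  have h2 : 2 * π * conv f (rad Real.log a) x =
      ∫ θ in (0 : ℝ)..2 * π, ∫ y, f y * rad Real.log a (x - rotF θ y) := by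
    simp_rw [← h1]
    simp
  obtain ⟨M, hM⟩ := (isCompact_closedBall (0 : E6) (‖x‖ + 3)).exists_bound_of_continuousOn
    hG.continuousOn
  rw [intervalIntegral_integral_swap] at h2
  · simp_rw [intervalIntegral.integral_const_mul, circle_avg ha, mul_left_comm _ (2 * π),
      integral_const_mul] at h2
    exact mul_left_cancel₀ (by positivity) h2
  · have hfin : IsFiniteMeasure (volume.restrict (uIoc (0 : ℝ) (2 * π))) :=
      isFiniteMeasure_restrict.2 (by simp [uIoc])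
    refine ((integrable_const M).mul_prod hf.integrable).mono' ?_
      (Eventually.of_forall fun p => ?_)
    · exact Continuous.aestronglyMeasurable ((hf.cont.comp continuous_snd).mul
        (hG.comp (continuous_const.sub continuous_rotF)))
    · simp only [Function.uncurry]
      by_cases hy : f p.2 = 0
      · simp [hy]
      · have : ‖p.2‖ ≤ 3 := not_lt.1 fun h => hy (hf.supp _ h)
        rw [norm_mul, Real.norm_of_nonneg (hf.nonneg _), mul_comm]
        refine mul_le_mul_of_nonneg_right (hM _ ?_) (hf.nonneg _)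
        rw [mem_closedBall_zero_iff]
        have := norm_sub_le x (rotF p.1 p.2)
        rw [norm_rotF] at this
        linarith

end Pool.Agent.Lib.MP_af5b7f_an
end
end
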