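import Mathlib

/-!
Definitions for blow-up sequences of the prescribed Q-curvature equation in dimension `2n`.
The space `E` is a finite-dimensional real inner product space with its Lebesgue measure;
the hand-in uses `E = ℝ^6` and `n = 3`.
-/

set_option autoImplicit false

open Filter Topology MeasureTheory
open scoped ContDiff

noncomputable section

namespace Pool.Agent.Lib.MP_af5b7f_an

/-- `Λ₁ = (2n-1)! |S^{2n}|`, where `|S^{2n}| = 2 π^{(2n+1)/2} / Γ((2n+1)/2)`. -/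
def lambdaOne (n : ℕ) : ℝ :=
  ((2 * n - 1).factorial : ℝ) *
    (2 * Real.pi ^ ((2 * (n : ℝ) + 1) / 2) / Real.Gamma ((2 * (n : ℝ) + 1) / 2))

variable {E : Type} [NormedAddCommGroup E] [InnerProductSpace ℝ E] [FiniteDimensional ℝ E]

/-- The iterated Laplacian `Δ^n u`. -/
def lapPow (n : ℕ) (u : E → ℝ) : E → ℝ :=
  (fun v : E → ℝ => (Laplacian.laplacian v : E → ℝ))^[n] u

/-- `v_k → w` in `C^m_loc(U)`: all derivatives of order at most `m` converge uniformly on every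
compact subset of `U`. -/
def TendstoCk (m : ℕ) (U : Set E) (v : ℕ → E → ℝ) (w : E → ℝ) : Prop :=
  ∀ K ⊆ U, IsCompact K → ∀ j ≤ m,
    TendstoUniformlyOn (fun k => iteratedFDeriv ℝ j (v k)) (iteratedFDeriv ℝ j w) atTop K

/-- `v_k → w` in `C^{m,α}_loc(U)`: convergence in `C^m_loc(U)`, and on every compact subset of
`U` the `α`-Hölder seminorm of `D^m v_k - D^m w` tends to `0`. -/
def TendstoCkHolder (m : ℕ) (α : ℝ) (U : Set E) (v : ℕ → E → ℝ) (w : E → ℝ) : Prop :=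
  TendstoCk m U v w ∧
    ∀ K ⊆ U, IsCompact K → ∀ η > (0 : ℝ), ∀ᶠ k in atTop, ∀ x ∈ K, ∀ y ∈ K,
      ‖(iteratedFDeriv ℝ m (v k) x - iteratedFDeriv ℝ m w x) -
        (iteratedFDeriv ℝ m (v k) y - iteratedFDeriv ℝ m w y)‖ ≤ η * ‖x - y‖ ^ α

/-- `φ ∈ 𝒦(Ω, S)`: smooth on `Ω ∖ S`, `φ ≤ 0`, `φ ≢ 0`, `Δ^n φ ≡ 0` there. -/
def MemK (n : ℕ) (Ω S : Set E) (φ : E → ℝ) : Prop :=
  ContDiffOn ℝ ∞ φ (Ω \ S) ∧ (∀ x ∈ Ω \ S, φ x ≤ 0) ∧ (∃ x ∈ Ω \ S, φ x ≠ 0) ∧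
    ∀ x ∈ Ω \ S, lapPow n φ x = 0

/-- The polyharmonic blow-up set `S_φ = {x ∈ Ω ∖ S : φ x = 0}`. -/
def zeroSet (Ω S : Set E) (φ : E → ℝ) : Set E :=
  {x | x ∈ Ω \ S ∧ φ x = 0}

/-- The blow-up of `(u_k)` at `x₀` is spherical (`v₀` stands for `V₀(x₀)`): with
`ũ_k = u_k + (1/2n) log (v₀ / (2n-1)!)`, along a subsequence `σ` there are points `x_k → x₀`
with `r_k = 2 exp(-ũ_k(x_k)) → 0` and `ũ_k(x_k + r_k y) + log r_k → log (2 / (1 + |y|²))` in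
`C^{2n-1}_loc`. -/
def IsSpherical (n : ℕ) (u : ℕ → E → ℝ) (v₀ : ℝ) (x₀ : E) : Prop :=
  ∃ (σ : ℕ → ℕ) (x : ℕ → E) (r : ℕ → ℝ) (w : ℕ → E → ℝ), StrictMono σ ∧
    (∀ k y, w k y = u (σ k) y + 1 / (2 * (n : ℝ)) * Real.log (v₀ / ((2 * n - 1).factorial : ℝ))) ∧
    (∀ k, r k = 2 * Real.exp (-w k (x k))) ∧
    Tendsto x atTop (𝓝 x₀) ∧ Tendsto r atTop (𝓝 0) ∧
    TendstoCk (2 * n - 1) Set.univ (fun k y => w k (x k + r k • y) + Real.log (r k))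
      (fun y => Real.log (2 / (1 + ‖y‖ ^ 2)))

variable [MeasurableSpace E] [BorelSpace E]

/-- `(u_k)` are classical solutions of `(-Δ)^n u_k = V_k e^{2n u_k}` in `Ω` with
`∫_Ω e^{2n u_k} ≤ C`, and `V_k → V₀` locally uniformly in `Ω`, with `V₀ > 0` continuous. -/
structure IsSolutionSeq (n : ℕ) (Ω : Set E) (u V : ℕ → E → ℝ) (V₀ : E → ℝ) : Prop where
  smooth : ∀ k, ContDiffOn ℝ (2 * n : ℕ) (u k) Ω
  cont : ∀ k, ContinuousOn (V k) Ω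
  eqn : ∀ k, ∀ x ∈ Ω, (-1) ^ n * lapPow n (u k) x = V k x * Real.exp (2 * n * u k x)
  integrable : ∀ k, IntegrableOn (fun x => Real.exp (2 * n * u k x)) Ω
  bound : ∃ C : ℝ, ∀ k, ∫ x in Ω, Real.exp (2 * n * u k x) ≤ C
  conv : TendstoLocallyUniformlyOn V V₀ atTop Ω
  cont₀ : ContinuousOn V₀ Ω
  pos₀ : ∀ x ∈ Ω, 0 < V₀ x

/-- The concentration set
`S₁ = {x ∈ Ω : lim_{r → 0⁺} liminf_k ∫_{B_r(x)} V_k e^{2n u_k} ≥ Λ₁ / 2}`. -/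
def concSet (n : ℕ) (Ω : Set E) (u V : ℕ → E → ℝ) : Set E :=
  {x | x ∈ Ω ∧ ∃ L : ℝ, lambdaOne n / 2 ≤ L ∧
    Tendsto (fun r : ℝ => liminf
      (fun k => ∫ y in Metric.ball x r, V k y * Real.exp (2 * n * u k y)) atTop)
      (𝓝[>] 0) (𝓝 L)}

/-- The blow-up case: `S₁` is finite, `φ ∈ 𝒦(Ω, S₁)`, `β_k → ∞` and `u_k / β_k → φ` in
`C^{2n-1,α}_loc(Ω ∖ (S₁ ∪ S_φ))` for every `α ∈ [0,1)`. -/
def IsBlowUp (n : ℕ) (Ω : Set E) (u V : ℕ → E → ℝ) (φ : E → ℝ) (β : ℕ → ℝ) : Prop :=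
  (concSet n Ω u V).Finite ∧ MemK n Ω (concSet n Ω u V) φ ∧ Tendsto β atTop atTop ∧
    ∀ α : ℝ, 0 ≤ α → α < 1 →
      TendstoCkHolder (2 * n - 1) α (Ω \ (concSet n Ω u V ∪ zeroSet Ω (concSet n Ω u V) φ))
        (fun k x => u k x / β k) φ

end Pool.Agent.Lib.MP_af5b7f_an
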