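import Pool.Agent.Lib.MP_af5b7f_an.Circle

-- part Pool.Agent.Lib.MP_af5b7f_an.Density
section

/-! The densities concentrating on a small circle. -/

set_option autoImplicit false

open Filter Topology MeasureTheory Set
open scoped ContDiff InnerProductSpace Real

noncomputable section

namespace Pool.Agent.Lib.MP_af5b7f_an

/-- the logarithmic potential of the uniform measure on the circle -/
def WW (c ε : ℝ) (x : E6) : ℝ := -c * Hh x (ε ^ 2) (tau x) 0

/-- cut-off -/
def chi (x : E6) : ℝ := max 0 (min 1 (3 - ‖x‖))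

def gg (c ε s : ℝ) (x : E6) : ℝ := chi x * Real.exp (6 * (-(s ^ 32)⁻¹ * phi ε x + WW c ε x))

def ZZ (c ε s : ℝ) : ℝ := ∫ x, gg c ε s x

def ff (m c ε s : ℝ) (x : E6) : ℝ := m / ZZ c ε s * gg c ε s x

lemma continuous_rho : Continuous rho := deg_rho.contDiff.continuous

lemma continuous_tau : Continuous tau := deg_tau.contDiff.continuous

lemma continuous_H0 {ε : ℝ} (hε : 0 < ε) : Continuous (fun x : E6 => Hh x (ε ^ 2) (tau x) 0) := by
  have h1 := continuous_rho
  have h2 := continuous_tau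
  unfold Hh
  refine Continuous.log (continuous_qq.comp (f := fun x : E6 =>
    (rho x + ε ^ 2 + tau x + 0, rho x * ε ^ 2)) (by fun_prop)) fun x => ne_of_gt ?_
  have := qq_ge (rho x + ε ^ 2 + tau x + 0) (rho x * ε ^ 2)
  have := rho_nonneg x
  have := tau_nonneg x
  have : 0 < ε ^ 2 := by positivity
  linarith

lemma continuous_WW (c : ℝ) {ε : ℝ} (hε : 0 < ε) : Continuous (WW c ε) :=
  continuous_const.mul (continuous_H0 hε)

lemma WW_rotF (c ε θ : ℝ) (y : E6) : WW c ε (rotF θ y) = WW c ε y := by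
  simp only [WW, Hh, rho_rotF, tau_rotF]

lemma chi_nonneg (x : E6) : 0 ≤ chi x := le_max_left _ _

lemma chi_le_one (x : E6) : chi x ≤ 1 := max_le zero_le_one (min_le_left _ _)

lemma chi_eq_one {x : E6} (hx : ‖x‖ ≤ 2) : chi x = 1 := by
  unfold chi
  rw [min_eq_left (by linarith), max_eq_right zero_le_one]

lemma chi_eq_zero {x : E6} (hx : 3 < ‖x‖) : chi x = 0 :=
  max_eq_left ((min_le_right _ _).trans (by linarith))

lemma continuous_chi : Continuous chi := by
  unfold chi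
  fun_prop

lemma isDens_gg (c s : ℝ) {ε : ℝ} (hε : 0 < ε) : IsDens (gg c ε s) where
  cont := by
    have h1 := continuous_chi
    have h2 := continuous_phi ε
    have h3 := continuous_WW c hε
    unfold gg
    fun_prop
  nonneg y := mul_nonneg (chi_nonneg y) (Real.exp_pos _).le
  supp y hy := by rw [gg, chi_eq_zero hy, zero_mul]

lemma gg_rotF (c ε s θ : ℝ) (y : E6) : gg c ε s (rotF θ y) = gg c ε s y := by
  simp only [gg, chi, norm_rotF, phi_rotF, WW_rotF]

lemma ff_rotF (m c ε s θ : ℝ) (y : E6) : ff m c ε s (rotF θ y) = ff m c ε s y := by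
  simp only [ff, gg_rotF]

lemma gg_le {c ε s M θ : ℝ} (hM : ∀ x : E6, ‖x‖ ≤ 3 → |WW c ε x| ≤ M) {x : E6}
    (hθ : θ ≤ (s ^ 32)⁻¹ * phi ε x) :
    gg c ε s x ≤ Real.exp (6 * M) * Real.exp (-(6 * θ)) := by
  by_cases hx : 3 < ‖x‖
  · rw [gg, chi_eq_zero hx, zero_mul]; positivity
  · have := (abs_le.1 (hM x (not_lt.1 hx))).2
    rw [← Real.exp_add, gg]
    refine (mul_le_of_le_one_left (Real.exp_pos _).le (chi_le_one x)).trans ?_
    exact Real.exp_le_exp.2 (by linarith)

lemma gg_le' {c ε s M : ℝ} (hM : ∀ x : E6, ‖x‖ ≤ 3 → |WW c ε x| ≤ M) (x : E6) :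
    gg c ε s x ≤ Real.exp (6 * M) := by
  have := gg_le (s := s) (θ := 0) hM (x := x) (mul_nonneg (by positivity) (phi_nonneg ε x))
  simpa using this

lemma ZZ_ge {c ε s M : ℝ} (hε : 0 < ε) (hε' : ε ≤ 1 / 2) (hs : 0 < s) (hs' : s ≤ 1 / 2)
    (hM : ∀ x : E6, ‖x‖ ≤ 3 → |WW c ε x| ≤ M) :
    64 * Real.exp (6 * (-50 - M)) * s ^ 88 ≤ ZZ c ε s := by
  set t : ℝ := s ^ 8 with ht
  have ht0 : 0 < t := by positivity
  have ht1 : t ≤ 1 / 2 := (pow_le_of_le_one hs.le (by linarith) (by norm_num)).trans hs'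
  set lo : Fin 6 → ℝ := ![ε - t ^ 2, -t, -t ^ 2, -t ^ 2, -t ^ 2, -t ^ 2] with hlo
  set hi : Fin 6 → ℝ := ![ε + t ^ 2, t, t ^ 2, t ^ 2, t ^ 2, t ^ 2] with hhi
  set Bx : Set E6 := WithLp.ofLp ⁻¹' Icc lo hi with hBx
  have hmp := PiLp.volume_preserving_ofLp (Fin 6)
  have hmeas : MeasurableSet Bx := hmp.measurable measurableSet_Icc
  have hvol : volume Bx = ENNReal.ofReal (64 * t ^ 11) := by
    rw [hBx, hmp.measure_preimage measurableSet_Icc.nullMeasurableSet, Real.volume_Icc_pi,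
      ← ENNReal.ofReal_prod_of_nonneg]
    · congr 1
      simp [Fin.prod_univ_six, hlo, hhi]
      ring
    · intro i _
      fin_cases i <;> simp [hlo, hhi] <;> positivity
  have hreal : volume.real Bx = 64 * t ^ 11 := by
    rw [measureReal_def, hvol, ENNReal.toReal_ofReal (by positivity)]
  have hi1 : Integrable (Bx.indicator fun _ => Real.exp (6 * (-50 - M))) :=
    (integrable_indicator_iff hmeas).2 (integrableOn_const (by rw [hvol]; exact ENNReal.ofReal_ne_top))
  have := integral_mono hi1 (isDens_gg c s hε).integrable fun x => ?_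
  · rw [integral_indicator_const _ hmeas, hreal, smul_eq_mul] at this
    refine le_trans (le_of_eq ?_) this
    rw [ht]
    ring
  · by_cases hx : x ∈ Bx
    · rw [indicator_of_mem hx]
      have a0 := hx.1 0
      have b0 := hx.2 0
      have a1 := hx.1 1
      have b1 := hx.2 1
      have a2 := hx.1 2
      have b2 := hx.2 2
      have a3 := hx.1 3
      have b3 := hx.2 3
      have a4 := hx.1 4
      have b4 := hx.2 4
      have a5 := hx.1 5
      have b5 := hx.2 5
      simp [hlo, hhi] at a0 b0 a1 b1 a2 b2 a3 b3 a4 b4 a5 b5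
      obtain ⟨h1, h2⟩ := phi_box hε.le hε' ht0.le ht1 (x := x)
        (abs_le.2 ⟨by linarith, by linarith⟩) (abs_le.2 ⟨a1, b1⟩) (abs_le.2 ⟨a2, b2⟩)
        (abs_le.2 ⟨a3, b3⟩) (abs_le.2 ⟨a4, b4⟩) (abs_le.2 ⟨a5, b5⟩)
      rw [gg, chi_eq_one h2, one_mul]
      refine Real.exp_le_exp.2 ?_
      have h3 := (abs_le.1 (hM x (by linarith))).1
      have h4 : (s ^ 32)⁻¹ * phi ε x ≤ 50 := by
        rw [inv_mul_le_iff₀ (by positivity)]
        rw [ht] at h1
        linarith
      linarith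
    · rw [indicator_of_notMem hx]
      exact (isDens_gg c s hε).nonneg x

lemma phi_pos_of_ne {ε : ℝ} {x : E6} (hx : x 3 ≠ 0) : 0 < phi ε x := by
  have h1 : 0 < x 3 ^ 2 := by positivity
  have h2 : 0 < tau x := by unfold tau; positivity
  have h3 : 0 < psi x := by unfold psi; positivity
  have := rho_nonneg x
  unfold phi
  positivity

lemma ae_coord_ne : ∀ᵐ x : E6, x 3 ≠ 0 := by
  have h := Measure.addHaar_submodule (volume : Measure E6)
    (LinearMap.ker (EuclideanSpace.proj (𝕜 := ℝ) (3 : Fin 6)).toLinearMap) (by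
      intro h
      have : pd ∈ LinearMap.ker (EuclideanSpace.proj (𝕜 := ℝ) (3 : Fin 6)).toLinearMap := by
        rw [h]; trivial
      simp [pd] at this)
  filter_upwards [measure_eq_zero_iff_ae_notMem.1 h] with x hx
  simpa using hx

lemma tendsto_inv_pow_atTop {n : ℕ} (hn : n ≠ 0) :
    Tendsto (fun s : ℝ => (s ^ n)⁻¹) (𝓝[>] 0) atTop := by
  simp_rw [← inv_pow]
  exact (tendsto_pow_atTop hn).comp tendsto_inv_nhdsGT_zero

lemma ZZ_tendsto (c : ℝ) {ε : ℝ} (hε : 0 < ε) :
    Tendsto (fun s => ZZ c ε s) (𝓝[>] 0) (𝓝 0) := by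
  obtain ⟨M, hM⟩ := (isCompact_closedBall (0 : E6) 3).exists_bound_of_continuousOn
    (continuous_WW c hε).continuousOn
  have hM' : ∀ x : E6, ‖x‖ ≤ 3 → |WW c ε x| ≤ M := fun x hx =>
    hM x (mem_closedBall_zero_iff.2 hx)
  have := tendsto_integral_filter_of_dominated_convergence (μ := (volume : Measure E6))
    (l := 𝓝[>] (0 : ℝ)) (F := fun s x => gg c ε s x) (f := fun _ => 0)
    ((Metric.closedBall (0 : E6) 3).indicator fun _ => Real.exp (6 * M))
    (Eventually.of_forall fun s => (isDens_gg c s hε).cont.aestronglyMeasurable)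
    (Eventually.of_forall fun s => Eventually.of_forall fun x => ?_)
    ((integrable_indicator_iff measurableSet_closedBall).2
      (integrableOn_const measure_closedBall_lt_top.ne)) ?_
  · simpa [ZZ] using this
  · rw [Real.norm_of_nonneg ((isDens_gg c s hε).nonneg x)]
    by_cases hx : 3 < ‖x‖
    · rw [(isDens_gg c s hε).supp x hx]
      exact indicator_nonneg (fun _ _ => (Real.exp_pos _).le) x
    · rw [indicator_of_mem (mem_closedBall_zero_iff.2 (not_lt.1 hx))]
      exact gg_le' hM' x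
  · filter_upwards [ae_coord_ne] with x hx
    have h1 : Tendsto (fun s : ℝ => 6 * (-(s ^ 32)⁻¹ * phi ε x + WW c ε x)) (𝓝[>] 0) atBot := by
      refine Tendsto.const_mul_atBot (by norm_num) (tendsto_atBot_add_const_right _ _ ?_)
      exact (tendsto_neg_atTop_atBot.comp (tendsto_inv_pow_atTop (by norm_num))).atBot_mul_const
        (phi_pos_of_ne hx)
    have := (Real.tendsto_exp_atBot.comp h1).const_mul (chi x)
    simpa [gg] using this

lemma exp_neg_le {s : ℝ} (hs : 0 < s) :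
    Real.exp (-(6 * (s ^ 2)⁻¹)) ≤ (Nat.factorial 45 : ℝ) * s ^ 90 := by
  have h := Real.pow_div_factorial_le_exp ((s ^ 2)⁻¹) (by positivity) 45
  have h2 : Real.exp (-(6 * (s ^ 2)⁻¹)) ≤ Real.exp (-(s ^ 2)⁻¹) := by
    refine Real.exp_le_exp.2 ?_
    have : 0 < (s ^ 2)⁻¹ := by positivity
    linarith
  refine h2.trans ?_
  rw [Real.exp_neg, inv_le_comm₀ (Real.exp_pos _) (by positivity)]
  refine le_trans (le_of_eq ?_) h
  field_simp

/-- The basic properties of the densities. -/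
lemma dens_package {m : ℝ} (hm : 0 < m) (c : ℝ) {ε : ℝ} (hε : 0 < ε) (hε' : ε ≤ 1 / 2) :
    ∃ C M : ℝ, 0 < C ∧ (∀ x : E6, ‖x‖ ≤ 3 → |WW c ε x| ≤ M) ∧ ∀ s : ℝ, 0 < s → s ≤ 1 / 2 →
      0 < ZZ c ε s ∧ IsDens (ff m c ε s) ∧ ∫ x, ff m c ε s x = m ∧
      m / ZZ c ε s ≤ C / s ^ 88 ∧ (∀ x, ff m c ε s x ≤ C / s ^ 88) ∧
      ∀ x, s ^ 30 ≤ phi ε x → ff m c ε s x ≤ C * s ^ 2 := by
  obtain ⟨M, hM⟩ := (isCompact_closedBall (0 : E6) 3).exists_bound_of_continuousOn
    (continuous_WW c hε).continuousOn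
  have hM' : ∀ x : E6, ‖x‖ ≤ 3 → |WW c ε x| ≤ M := fun x hx =>
    hM x (mem_closedBall_zero_iff.2 hx)
  have hM0 : 0 ≤ M := (abs_nonneg _).trans (hM' 0 (by simp))
  set c₀ : ℝ := 64 * Real.exp (6 * (-50 - M)) with hc₀
  have hc₀p : 0 < c₀ := by positivity
  have hF : (1 : ℝ) ≤ (Nat.factorial 45 : ℝ) := by exact_mod_cast Nat.factorial_pos 45
  have hE : (1 : ℝ) ≤ Real.exp (6 * M) := Real.one_le_exp (by linarith)
  refine ⟨m / c₀ * (Real.exp (6 * M) * (Nat.factorial 45 : ℝ)), M, by positivity, hM',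
    fun s hs hs' => ?_⟩
  have hZ := ZZ_ge hε hε' hs hs' hM'
  have hZ0 : 0 < ZZ c ε s := lt_of_lt_of_le (by positivity) hZ
  have hg := isDens_gg c s hε
  have h1 : m / ZZ c ε s ≤ m / c₀ / s ^ 88 := by
    rw [div_div]
    gcongr
  refine ⟨hZ0, ⟨continuous_const.mul hg.cont, fun y => mul_nonneg (by positivity) (hg.nonneg y),
    fun y hy => by rw [ff, hg.supp y hy, mul_zero]⟩, ?_, ?_, fun x => ?_, fun x hx => ?_⟩
  · unfold ff
    rw [integral_const_mul, ← ZZ]
    field_simp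
  · refine h1.trans ?_
    gcongr
    exact le_mul_of_one_le_right (by positivity) (one_le_mul_of_one_le_of_one_le hE hF)
  · calc ff m c ε s x ≤ m / c₀ / s ^ 88 * Real.exp (6 * M) :=
          mul_le_mul h1 (gg_le' hM' x) (hg.nonneg x) (by positivity)
      _ = m / c₀ * (Real.exp (6 * M) * 1) / s ^ 88 := by ring
      _ ≤ _ := by gcongr
  · have h2 : (s ^ 2)⁻¹ ≤ (s ^ 32)⁻¹ * phi ε x := by
      calc (s ^ 2)⁻¹ = (s ^ 32)⁻¹ * s ^ 30 := by field_simp
        _ ≤ _ := by gcongr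
    calc ff m c ε s x ≤ m / c₀ / s ^ 88 * (Real.exp (6 * M) * Real.exp (-(6 * (s ^ 2)⁻¹))) :=
          mul_le_mul h1 (gg_le hM' h2) (hg.nonneg x) (by positivity)
      _ ≤ m / c₀ / s ^ 88 * (Real.exp (6 * M) * ((Nat.factorial 45 : ℝ) * s ^ 90)) := by
          gcongr
          exact exp_neg_le hs
      _ = _ := by field_simp

end Pool.Agent.Lib.MP_af5b7f_an
end
end

-- part Pool.Agent.Lib.MP_af5b7f_an.Tail
section

/-! The potential of the concentrating densities is close to the potential of the circle. -/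

set_option autoImplicit false

open Filter Topology MeasureTheory Set
open scoped ContDiff InnerProductSpace Real

noncomputable section

namespace Pool.Agent.Lib.MP_af5b7f_an

/-- majorant of the density away from the circle -/
def TT (C s : ℝ) (y : E6) : ℝ :=
  (Metric.ball (0 : E6) 4).indicator (fun _ => C * s ^ 2) y +
    (Metric.ball pe (3 * s ^ 15)).indicator (fun _ => C / s ^ 88) y

/-- volume constant -/
def vv : ℝ := volume.real (Metric.ball (0 : E6) 4) + 3 ^ 6 * volume.real (Metric.ball (0 : E6) 1)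

lemma vv_nonneg : 0 ≤ vv := by unfold vv; positivity

lemma integrable_ind (x : E6) (r c : ℝ) :
    Integrable ((Metric.ball x r).indicator fun _ => c) :=
  (integrable_indicator_iff measurableSet_ball).2 (integrableOn_const measure_ball_lt_top.ne)

lemma integrable_TT (C s : ℝ) : Integrable (TT C s) :=
  (integrable_ind _ _ _).add (integrable_ind _ _ _)

lemma TT_nonneg {C s : ℝ} (hC : 0 ≤ C) (y : E6) : 0 ≤ TT C s y :=
  add_nonneg (indicator_nonneg (fun _ _ => by positivity) y)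
    (indicator_nonneg (fun _ _ => by positivity) y)

lemma integral_TT (C : ℝ) {s : ℝ} (hs : 0 < s) : ∫ y, TT C s y = C * vv * s ^ 2 := by
  unfold TT
  rw [integral_add (integrable_ind _ _ _) (integrable_ind _ _ _),
    integral_indicator_const _ measurableSet_ball, integral_indicator_const _ measurableSet_ball,
    measureReal_def (s := Metric.ball pe _), Measure.addHaar_ball_of_pos _ _ (by positivity),
    finrank_E6, ENNReal.toReal_mul, ENNReal.toReal_ofReal (by positivity), ← measureReal_def]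
  simp only [smul_eq_mul, vv]
  field_simp

/-- neighbourhood of the circle -/
def NN (ε s : ℝ) : Set E6 :=
  {y | tau y < 4 * s ^ 30 ∧ (rho y - ε ^ 2 * (1 - y 2)) ^ 2 < s ^ 30}

lemma tail_le {f : E6 → ℝ} (hf : IsDens f) {C ε s : ℝ} (hC : 0 ≤ C) (hs : 0 < s)
    (hs' : s ≤ 1 / 2) (h1 : ∀ x, f x ≤ C / s ^ 88) (h2 : ∀ x, s ^ 30 ≤ phi ε x → f x ≤ C * s ^ 2)
    {y : E6} (hy : y ∉ NN ε s) : f y ≤ TT C s y := by
  have p1 : 0 ≤ (Metric.ball (0 : E6) 4).indicator (fun _ => C * s ^ 2) y :=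
    indicator_nonneg (fun _ _ => by positivity) y
  have p2 : 0 ≤ (Metric.ball pe (3 * s ^ 15)).indicator (fun _ => C / s ^ 88) y :=
    indicator_nonneg (fun _ _ => by positivity) y
  unfold TT
  by_cases h3 : 3 < ‖y‖
  · rw [hf.supp y h3]; linarith
  by_cases h4 : s ^ 30 ≤ phi ε y
  · rw [indicator_of_mem (mem_ball_zero_iff.2 (by linarith [not_lt.1 h3]))]
    linarith [h2 y h4]
  · have h5 : s ^ 30 ≤ 1 / 16 := by
      calc s ^ 30 ≤ s ^ 4 := pow_le_pow_of_le_one hs.le (by linarith) (by norm_num)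
        _ ≤ (1 / 2) ^ 4 := by gcongr
        _ = 1 / 16 := by norm_num
    rcases phi_small h5 (not_le.1 h4) with h | h
    · exact absurd h hy
    · have h6 : ‖y - pe‖ < 3 * s ^ 15 := by
        refine lt_of_pow_lt_pow_left₀ 2 (by positivity) (h.trans_le ?_)
        have : 0 < s ^ 30 := by positivity
        nlinarith
      rw [indicator_of_mem (s := Metric.ball pe _) (mem_ball_iff_norm.2 h6)]
      linarith [h1 y]

lemma NN_rho {ε s : ℝ} (hε : ε ^ 2 ≤ 1) (hs : 0 < s) {y : E6} (hy : y ∈ NN ε s) :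
    |rho y - ε ^ 2| < 3 * s ^ 15 := by
  have h1 : |rho y - ε ^ 2 * (1 - y 2)| < s ^ 15 := by
    refine lt_of_pow_lt_pow_left₀ 2 (by positivity) ?_
    rw [sq_abs, ← pow_mul]
    exact hy.2
  have h2 : |y 2| < 2 * s ^ 15 := by
    refine lt_of_pow_lt_pow_left₀ 2 (by positivity) ?_
    rw [sq_abs, show (2 * s ^ 15) ^ 2 = 4 * s ^ 30 by ring]
    have := hy.1
    unfold tau at this
    linarith [sq_nonneg (y 3), sq_nonneg (y 4), sq_nonneg (y 5)]
  have h3 : |ε ^ 2 * y 2| ≤ 1 * (2 * s ^ 15) := by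
    rw [abs_mul, abs_of_nonneg (sq_nonneg ε)]
    gcongr
  obtain ⟨a, b⟩ := abs_lt.1 h1
  obtain ⟨c, d⟩ := abs_le.1 h3
  rw [abs_lt]
  constructor <;> linarith

lemma Hh_bound {a s : ℝ} (ha : 0 < a) (ha1 : a ≤ 1) (hs : 0 < s) (hs1 : s ≤ 1) {x y : E6}
    (hx : ‖x‖ ≤ 2) (hy : ‖y‖ ≤ 3) (hxy : x - y ≠ 0) :
    |Hh x (rho y) (tau (x - y)) a| ≤ 86 / s + 2 * s ^ 92 * kp 5 (x - y) := by
  have h1 := rho_nonneg x
  have h2 := rho_nonneg y
  have h3 := tau_nonneg (x - y)
  have hd : 0 < ‖x - y‖ := norm_pos_iff.2 hxy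
  have hd5 : ‖x - y‖ ≤ 5 := by linarith [norm_sub_le x y]
  have k1 : rho x ≤ 4 := by nlinarith [norm_sq_E6 x, tau_nonneg x, norm_nonneg x]
  have k2 : rho y ≤ 9 := by nlinarith [norm_sq_E6 y, tau_nonneg y, norm_nonneg y]
  have k3 : tau (x - y) ≤ 25 := by nlinarith [norm_sq_E6 (x - y), rho_nonneg (x - y)]
  have k4 : rho (x - y) ≤ 2 * (rho x + rho y) := by
    simp only [rho, PiLp.sub_apply]
    nlinarith [sq_nonneg (x 0 + y 0), sq_nonneg (x 1 + y 1)]
  unfold Hh
  set q := qq (rho x + rho y + tau (x - y) + a) (rho x * rho y) with hq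
  have q1 : q ≤ 39 := (qq_le (by linarith) (by positivity)).trans (by linarith)
  have q2 : (‖x - y‖ / 2) ^ 2 ≤ q := by
    refine le_trans ?_ (qq_ge _ _)
    rw [div_pow, norm_sq_E6]
    linarith
  have q0 : 0 < q := lt_of_lt_of_le (by positivity) q2
  have s1 : 1 ≤ 1 / s := by rw [le_div_iff₀ hs]; linarith
  have e86 : 86 / s = 86 * (1 / s) := by ring
  have hk : 0 ≤ 2 * s ^ 92 * kp 5 (x - y) := mul_nonneg (by positivity) (kp_nonneg _ _)
  have up : Real.log q ≤ 38 := (Real.log_le_sub_one_of_pos q0).trans (by linarith)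
  have lo : 2 * (Real.log ‖x - y‖ - Real.log 2) ≤ Real.log q := by
    rw [← Real.log_div hd.ne' (by norm_num)]
    have := Real.log_le_log (by positivity) q2
    rwa [Real.log_pow] at this
  have l2 : Real.log 2 ≤ 1 := (Real.log_le_sub_one_of_pos (by norm_num)).trans (by norm_num)
  rw [abs_le]
  refine ⟨?_, by linarith⟩
  by_cases hc : s ^ 23 ≤ ‖x - y‖
  · have := Real.log_le_log (by positivity) hc
    rw [Real.log_pow] at this
    have l3 : -(1 / s) ≤ Real.log s := by
      have := Real.one_sub_inv_le_log_of_pos hs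
      rw [one_div]
      linarith
    push_cast at this
    linarith
  · have l3 : -‖x - y‖⁻¹ ≤ Real.log ‖x - y‖ := by
      have := Real.one_sub_inv_le_log_of_pos hd
      linarith
    have l4 : ‖x - y‖⁻¹ ≤ s ^ 92 * kp 5 (x - y) := by
      rw [kp_of_lt 5 (by linarith), Real.rpow_neg hd.le,
        show (5 : ℝ) = ((5 : ℕ) : ℝ) by norm_num, Real.rpow_natCast]
      calc ‖x - y‖⁻¹ = ‖x - y‖ ^ 4 * (‖x - y‖ ^ 5)⁻¹ := by field_simp
        _ ≤ (s ^ 23) ^ 4 * (‖x - y‖ ^ 5)⁻¹ := by gcongr; exact (not_le.1 hc).le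
        _ = _ := by ring
    linarith

/-- the projection killing the first two coordinates -/
def pr (y : E6) : E6 := WithLp.toLp 2 ![0, 0, y 2, y 3, y 4, y 5]

lemma tau_sub_pr (x y : E6) : tau (x - pr y) = tau (x - y) := rfl

lemma norm_pr_sq (y : E6) : ‖pr y‖ ^ 2 = tau y := by
  rw [norm_sq_E6]
  have : rho (pr y) = 0 ^ 2 + 0 ^ 2 := rfl
  rw [this, show tau (pr y) = tau y from rfl]
  ring

lemma Hh_close {ε η : ℝ} (hε : 0 < ε) (hη : 0 < η) : ∃ κ : ℝ, 0 < κ ∧ ∀ x : E6, ‖x‖ ≤ 2 →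
    ∀ (y : E6) (a : ℝ), |rho y - ε ^ 2| < κ → tau y < κ ^ 2 → |a| < κ →
      |Hh x (rho y) (tau (x - y)) a - Hh x (ε ^ 2) (tau x) 0| ≤ η := by
  have key : ∀ᶠ p : ℝ × E6 × ℝ in 𝓝 (ε ^ 2, 0, 0), ∀ x ∈ Metric.closedBall (0 : E6) 2,
      |Hh x p.1 (tau (x - p.2.1)) p.2.2 - Hh x (ε ^ 2) (tau x) 0| < η := by
    refine (isCompact_closedBall (0 : E6) 2).eventually_forall_of_forall_eventually
      (P := fun (p : ℝ × E6 × ℝ) x =>
        |Hh x p.1 (tau (x - p.2.1)) p.2.2 - Hh x (ε ^ 2) (tau x) 0| < η) fun x _ => ?_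
    have h1 := continuous_rho
    have h2 := continuous_tau
    have c1 : ContinuousAt (fun z : (ℝ × E6 × ℝ) × E6 =>
        Hh z.2 z.1.1 (tau (z.2 - z.1.2.1)) z.1.2.2) ((ε ^ 2, 0, 0), x) := by
      unfold Hh
      refine ContinuousAt.log (Continuous.continuousAt (continuous_qq.comp
        (f := fun z : (ℝ × E6 × ℝ) × E6 =>
          (rho z.2 + z.1.1 + tau (z.2 - z.1.2.1) + z.1.2.2, rho z.2 * z.1.1)) (by fun_prop)))
        (ne_of_gt ?_)
      have := qq_ge (rho x + ε ^ 2 + tau (x - 0) + 0) (rho x * ε ^ 2)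
      have := rho_nonneg x
      have := tau_nonneg (x - 0)
      have : 0 < ε ^ 2 := by positivity
      simp only
      linarith
    have c2 : ContinuousAt (fun z : (ℝ × E6 × ℝ) × E6 => Hh z.2 (ε ^ 2) (tau z.2) 0)
        ((ε ^ 2, 0, 0), x) := ((continuous_H0 hε).comp continuous_snd).continuousAt
    refine (c1.sub c2).abs.eventually_lt continuousAt_const ?_
    simpa using hη
  obtain ⟨κ, hκ, h⟩ := Metric.eventually_nhds_iff.1 key
  refine ⟨κ, hκ, fun x hx y a h1 h2 h3 => ?_⟩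
  have := @h (rho y, pr y, a) (by
    rw [Prod.dist_eq, Prod.dist_eq]
    refine max_lt h1 (max_lt ?_ (by simpa using h3))
    simp only [dist_zero_right]
    refine lt_of_pow_lt_pow_left₀ 2 hκ.le ?_
    rwa [norm_pr_sq]) x (mem_closedBall_zero_iff.2 hx)
  exact this.le

lemma continuous_Hh_y {a : ℝ} (ha : 0 < a) (x : E6) :
    Continuous (fun y : E6 => Hh x (rho y) (tau (x - y)) a) := by
  have h1 := continuous_rho
  have h2 := continuous_tau
  unfold Hh
  refine Continuous.log (continuous_qq.comp (f := fun y : E6 =>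
    (rho x + rho y + tau (x - y) + a, rho x * rho y)) (by fun_prop)) fun y => ne_of_gt ?_
  have := qq_ge (rho x + rho y + tau (x - y) + a) (rho x * rho y)
  have := rho_nonneg x
  have := rho_nonneg y
  have := tau_nonneg (x - y)
  linarith

lemma ev_small {g : ℝ → ℝ} (hg : Continuous g) {η : ℝ} (h : g 0 < η) :
    ∀ᶠ s in 𝓝[>] (0 : ℝ), g s < η :=
  nhdsWithin_le_nhds (hg.continuousAt.eventually_lt continuousAt_const h)

lemma potential_close {m : ℝ} (hm : 0 < m) (c : ℝ) {ε η : ℝ} (hε : 0 < ε) (hε' : ε ≤ 1 / 2)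
    (hη : 0 < η) : ∃ a₀ : ℝ, 0 < a₀ ∧ ∀ᶠ s in 𝓝[>] (0 : ℝ), ∀ a, 0 < a → a < a₀ →
      ∀ x : E6, ‖x‖ ≤ 2 →
        |conv (ff m c ε s) (rad Real.log a) x - m * Hh x (ε ^ 2) (tau x) 0| ≤ η := by
  obtain ⟨C, M, hC, -, hP⟩ := dens_package hm c hε hε'
  obtain ⟨κ, hκ, hcl⟩ := Hh_close hε (η := η / (2 * m)) (by positivity)
  obtain ⟨M₀, hM₀⟩ := (isCompact_closedBall (0 : E6) 2).exists_bound_of_continuousOn
    (continuous_H0 hε).continuousOn
  have hM₀0 : 0 ≤ M₀ := (norm_nonneg _).trans (hM₀ 0 (by simp))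
  set I : ℝ := ∫ y : E6, kp 5 y with hI
  refine ⟨min κ 1, by positivity, ?_⟩
  filter_upwards [self_mem_nhdsWithin,
    ev_small (g := fun s => s) (η := 1 / 2) continuous_id (by norm_num),
    ev_small (g := fun s => 3 * s ^ 15) (η := κ) (by fun_prop) (by simpa using hκ),
    ev_small (g := fun s => (86 + M₀) * (C * vv * s) + 2 * C * s ^ 4 * I) (η := η / 2)
      (by fun_prop) (by simpa using hη)] with s hs hs1 hs2 hs3 a ha ha0 x hx
  have hs0 : 0 < s := hs
  obtain ⟨-, hf, hint, -, hb1, hb2⟩ := hP s hs0 hs1.le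
  set f := ff m c ε s with hfdef
  have i1 : Integrable (fun y => f y * Hh x (rho y) (tau (x - y)) a) :=
    (hf.cont.mul (continuous_Hh_y ha x)).integrable_of_hasCompactSupport hf.compact.mul_right
  have i2 : Integrable (fun y => f y * Hh x (ε ^ 2) (tau x) 0) := hf.integrable.mul_const _
  have j1 : Integrable (fun y => η / (2 * m) * f y) := hf.integrable.const_mul _
  have j2 : Integrable (fun y => (86 + M₀) / s * TT C s y) := (integrable_TT C s).const_mul _
  have j3 : Integrable (fun y : E6 => 2 * C * s ^ 4 * kp 5 (x - y)) :=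
    (integrable_kp_sub finrank_E6 (by norm_num) x).const_mul _
  rw [conv_eq_avg hf (ff_rotF m c ε s) ha, ← hint, ← integral_mul_const, ← integral_sub i1 i2,
    ← Real.norm_eq_abs]
  refine (norm_integral_le_of_norm_le ((j1.add j2).add j3) ?_).trans ?_
  · filter_upwards [ae_sub_ne finrank_E6 x] with y hy
    have p0 := hf.nonneg y
    have p1 : 0 ≤ η / (2 * m) * f y := by positivity
    have p2 : 0 ≤ (86 + M₀) / s * TT C s y := mul_nonneg (by positivity) (TT_nonneg hC.le y)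
    have pk := kp_nonneg 5 (x - y)
    have p3 : 0 ≤ 2 * C * s ^ 4 * kp 5 (x - y) := by positivity
    simp only [Pi.add_apply]
    rw [← mul_sub, norm_mul, Real.norm_of_nonneg p0, Real.norm_eq_abs]
    by_cases hN : y ∈ NN ε s
    · have h1 := hcl x hx y a ((NN_rho (by nlinarith) hs0 hN).trans hs2) (hN.1.trans_le (by
        have : (3 * s ^ 15) ^ 2 ≤ κ ^ 2 := by gcongr
        have : 0 < s ^ 30 := by positivity
        nlinarith)) (by rw [abs_of_pos ha]; exact ha0.trans_le (min_le_left _ _))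
      have := mul_le_mul_of_nonneg_left h1 p0
      linarith
    by_cases hy0 : f y = 0
    · rw [hy0]; linarith
    have hy3 : ‖y‖ ≤ 3 := not_lt.1 fun h => hy0 (hf.supp y h)
    have h1 := Hh_bound ha (ha0.le.trans (min_le_right _ _)) hs0 (by linarith) hx hy3 hy
    have h2 : |Hh x (ε ^ 2) (tau x) 0| ≤ M₀ / s := by
      refine (hM₀ x (mem_closedBall_zero_iff.2 hx)).trans ?_
      rw [le_div_iff₀ hs0]
      nlinarith
    have h3 : |Hh x (rho y) (tau (x - y)) a - Hh x (ε ^ 2) (tau x) 0| ≤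
        (86 + M₀) / s + 2 * s ^ 92 * kp 5 (x - y) := by
      refine (abs_sub _ _).trans ?_
      rw [add_div]
      linarith
    have h4 := tail_le hf hC.le hs0 hs1.le hb1 hb2 hN
    calc f y * |Hh x (rho y) (tau (x - y)) a - Hh x (ε ^ 2) (tau x) 0|
        ≤ f y * ((86 + M₀) / s + 2 * s ^ 92 * kp 5 (x - y)) := by gcongr
      _ = (86 + M₀) / s * f y + f y * (2 * s ^ 92 * kp 5 (x - y)) := by ring
      _ ≤ (86 + M₀) / s * TT C s y + C / s ^ 88 * (2 * s ^ 92 * kp 5 (x - y)) := by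
          gcongr
          exact hb1 y
      _ = (86 + M₀) / s * TT C s y + 2 * C * s ^ 4 * kp 5 (x - y) := by field_simp
      _ ≤ _ := by linarith
  · simp only [Pi.add_apply]
    have j12 : Integrable (fun y => η / (2 * m) * f y + (86 + M₀) / s * TT C s y) := j1.add j2
    rw [integral_add j12 j3, integral_add j1 j2, integral_const_mul, integral_const_mul,
      integral_const_mul, integral_kp_sub, integral_TT C hs0, hint, ← hI]
    have e1 : η / (2 * m) * m = η / 2 := by field_simp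
    have e2 : (86 + M₀) / s * (C * vv * s ^ 2) = (86 + M₀) * (C * vv * s) := by field_simp
    rw [e1, e2]
    linarith

end Pool.Agent.Lib.MP_af5b7f_an
end
end

-- part Pool.Agent.Lib.MP_af5b7f_an.Main
section

/-! One member of the blow-up sequence. -/

set_option autoImplicit false

open Filter Topology MeasureTheory Set
open scoped ContDiff InnerProductSpace Real

noncomputable section

namespace Pool.Agent.Lib.MP_af5b7f_an

/-- the region away from `0` and `e₂` -/
def Reg (ε : ℝ) : Set E6 := {x | ‖x‖ ≤ 2 ∧ 3 * ε ≤ ‖x‖ ∧ 3 * ε ≤ ‖x - pe‖}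

/-- The properties of one member of the sequence. -/
structure Good (m c₀ ε η α B : ℝ) (u f : E6 → ℝ) : Prop where
  hB : η⁻¹ ≤ B
  smooth : ContDiff ℝ ∞ u
  dens : IsDens f
  int : ∫ y, f y = m
  tail : ∫ y in (Metric.ball (0 : E6) (2 * ε))ᶜ, f y ≤ η
  pos : ∀ x, ‖x‖ ≤ 2 → 0 < f x
  eq1 : ∀ x, ‖x‖ ≤ 2 → |(-1) ^ 3 * lapPow 3 u x - f x| ≤ η * f x
  eq2 : ∀ x, ‖x‖ ≤ 2 → |Real.log (f x) - 6 * u x| ≤ η
  der : ∀ x ∈ Reg ε, ∀ j ≤ 5, ‖iteratedFDeriv ℝ j (fun x => u x / B + phi ε x) x‖ ≤ η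
  hol : ∀ x ∈ Reg ε, ∀ x' ∈ Reg ε, ‖iteratedFDeriv ℝ 5 (fun x => u x / B + phi ε x) x -
    iteratedFDeriv ℝ 5 (fun x => u x / B + phi ε x) x'‖ ≤ η * ‖x - x'‖ ^ α
  ate : η⁻¹ ≤ u pe
  second : ∀ (x : E6) (r : ℝ), ‖x‖ ≤ 1 → r ≤ 1 → r = 2 * Real.exp (-(u x + c₀)) →
    u (x + r • pd) + u (x - r • pd) - 2 * u x ≤ -η⁻¹

lemma NN_subset {ε s : ℝ} (hε : 0 < ε) (hε' : ε ≤ 1 / 2) (hs : 0 < s)
    (h : 3 * s ^ 15 + 4 * s ^ 30 < 3 * ε ^ 2) {y : E6} (hy : y ∈ NN ε s) : ‖y‖ < 2 * ε := by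
  have h1 := (abs_lt.1 (NN_rho (by nlinarith) hs hy)).2
  have h2 := hy.1
  refine lt_of_pow_lt_pow_left₀ 2 (by positivity) ?_
  rw [norm_sq_E6]
  linarith

lemma iteratedFDeriv_affine {g : E6 → ℝ} (hg : ContDiff ℝ ∞ g) (b k : ℝ) {j : ℕ} (hj : 1 ≤ j)
    (x : E6) : iteratedFDeriv ℝ j (fun x => b * g x + k) x = b • iteratedFDeriv ℝ j g x := by
  have h1 : ContDiffAt ℝ j g x := hg.contDiffAt.of_le (nat_le_infty j)
  rw [fun_iteratedFDeriv_add_apply (contDiffAt_const.mul h1) contDiffAt_const,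
    iteratedFDeriv_const_of_ne (by omega)]
  simp only [Pi.zero_apply, add_zero]
  exact iteratedFDeriv_const_smul_apply' (a := b) h1

lemma ev_pos : ∀ᶠ s in 𝓝[>] (0 : ℝ), 0 < s := self_mem_nhdsWithin

lemma exists_good {m : ℝ} (hm : 0 < m) (c₀ : ℝ) {ε η α : ℝ} (hε : 0 < ε) (hε' : ε ≤ 1 / 2)
    (hη : 0 < η) (hη1 : η ≤ 1) (hα0 : 0 ≤ α) (hα1 : α < 1) :
    ∃ (B : ℝ) (u f : E6 → ℝ), Good m c₀ ε η α B u f := by
  set L : ℝ := bigL E6 with hLdef
  have hL : 0 < L := bigL_pos finrank_E6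
  set c : ℝ := m / L with hc
  obtain ⟨C, M, hC, hM, hP⟩ := dens_package hm c hε hε'
  have hM0 : 0 ≤ M := (abs_nonneg _).trans (hM 0 (by simp))
  obtain ⟨a₀, ha₀, hpc⟩ := potential_close hm c hε hε' (η := η * L / 6) (by positivity)
  obtain ⟨Ck, hCk, hpb⟩ := potential_bounds finrank_E6
  set I : ℝ := ∫ y : E6, kp (5 + α) y with hI
  have hI0 : 0 ≤ I := integral_nonneg fun y => kp_nonneg _ y
  set J : ℝ := ε ^ (-(5 + α)) * m + 1 * I with hJ
  have hJ0 : 0 ≤ J := by positivity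
  set N : ℝ := 4 * (M + 1) + η⁻¹ with hN
  set c' : ℝ := 64 * Real.exp (-(6 * c₀)) * Real.exp (-(6 * (M + 1))) / C with hc'
  have hc'0 : 0 < c' := by positivity
  have hev := ((((((((ev_pos.and
    (ev_small (g := fun s => s) (η := 1 / 2) continuous_id (by norm_num))).and
    ((tendsto_inv_pow_atTop (n := 32) (by norm_num)).eventually_ge_atTop η⁻¹)).and hpc).and
    ((ev_small (g := fun s => C * vv * s ^ 2) (η := η) (by fun_prop) (by simpa using hη)).and
    ((ev_small (g := fun s => 3 * s ^ 15 + 4 * s ^ 30) (η := 3 * ε ^ 2) (by fun_prop)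
      (by simp; positivity)).and
    ((ev_small (g := fun s => 3 * s ^ 15) (η := 2 * ε) (by fun_prop) (by simpa using hε)).and
    (ev_small (g := fun s => C * s ^ 2) (η := 1) (by fun_prop) (by simp)))))).and
    (ev_small (g := fun s => s ^ 32 * (L⁻¹ * Ck * (2 * J))) (η := η) (by fun_prop)
      (by simpa using hη))).and
    (ev_small (g := fun s => s ^ 32 * (M + 1 + |Real.log C|) + 88 * s ^ 31) (η := η)
      (by fun_prop) (by simpa using hη))).and
    ((ZZ_tendsto c hε).eventually_le_const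
      (show (0 : ℝ) < m * Real.exp (-(6 * (η⁻¹ + M + 1))) by positivity))).and
    (ev_small (g := fun s => N ^ 3 * s ^ 8) (η := c') (by fun_prop) (by simpa using hc'0)))
  obtain ⟨s, ⟨⟨⟨⟨⟨⟨⟨⟨hs, hs1⟩, hs2⟩, hs3⟩, hs4, hs5, hs6, hs7⟩, hs8⟩, hs9⟩, hs10⟩, hs11⟩⟩ :=
    hev.exists
  clear hev hpc
  obtain ⟨hZ, hf, hint, hb0, hb1, hb2⟩ := hP s hs hs1.le
  set f := ff m c ε s with hfdef
  set k : ℝ := 1 / 6 * Real.log (m / ZZ c ε s) with hk
  have hlog : ∀ x : E6, ‖x‖ ≤ 2 →
      f x = Real.exp (6 * (-(s ^ 32)⁻¹ * phi ε x + WW c ε x + k)) := by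
    intro x hx
    rw [hfdef, ff, gg, chi_eq_one hx, one_mul, hk, mul_add 6 (_ + _), Real.exp_add, ← mul_assoc,
      show (6 : ℝ) * (1 / 6) = 1 by norm_num, one_mul, Real.exp_log (by positivity), mul_comm]
  have hpos : ∀ x : E6, ‖x‖ ≤ 2 → 0 < f x := fun x hx => by rw [hlog x hx]; exact Real.exp_pos _
  obtain ⟨x₀, hx₀, hmin⟩ := (isCompact_closedBall (0 : E6) 2).exists_isMinOn
    ⟨0, by simp⟩ hf.cont.continuousOn
  have hx₀' := hpos x₀ (mem_closedBall_zero_iff.1 hx₀)
  obtain ⟨δ, ⟨hδ1, hδ2⟩, hδ0⟩ := (((approx_id finrank_E6 hf (η := η * f x₀) (by positivity)).and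
    (ev_small (g := fun δ => δ ^ 2) (η := a₀) (by fun_prop) (by simpa using ha₀))).and
    ev_pos).exists
  have ha : 0 < δ ^ 2 := by positivity
  set w := conv f (rad Real.log (δ ^ 2)) with hw
  have hws : ContDiff ℝ ∞ w := contDiff_conv hf.cont hf.compact (contDiff_logK ha)
  have hwW : ∀ x : E6, ‖x‖ ≤ 2 → |WW c ε x - -L⁻¹ * w x| ≤ η / 6 := by
    intro x hx
    have h1 := hs3 _ ha hδ2 x hx
    have e : WW c ε x - -L⁻¹ * w x = L⁻¹ * (w x - m * Hh x (ε ^ 2) (tau x) 0) := by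
      rw [WW, hc]
      field_simp
      ring
    rw [e, abs_mul, abs_of_pos (inv_pos.2 hL), inv_mul_le_iff₀ hL]
    linarith
  have hwM : ∀ x : E6, ‖x‖ ≤ 2 → |-L⁻¹ * w x| ≤ M + 1 := by
    intro x hx
    have h1 := abs_le.1 (hwW x hx)
    have h2 := abs_le.1 (hM x (by linarith))
    rw [abs_le]
    constructor <;> linarith
  have hk1 : η⁻¹ + M + 1 ≤ k := by
    have : Real.exp (6 * (η⁻¹ + M + 1)) ≤ m / ZZ c ε s := by
      rw [le_div_iff₀ hZ]
      rw [Real.exp_neg, ← div_eq_mul_inv, le_div_iff₀ (Real.exp_pos _)] at hs10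
      linarith
    have := (Real.le_log_iff_exp_le (by positivity)).2 this
    linarith
  have hk0 : 0 ≤ k := le_trans (by positivity) hk1
  have hk2 : k ≤ |Real.log C| + 88 / s := by
    have h1 := Real.log_le_log (by positivity) hb0
    rw [Real.log_div hC.ne' (by positivity), Real.log_pow] at h1
    have l3 : -(1 / s) ≤ Real.log s := by
      have := Real.one_sub_inv_le_log_of_pos hs
      rw [one_div]
      linarith
    have h2 := le_abs_self (Real.log C)
    have h3 : 88 / s = 88 * (1 / s) := by ring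
    have h4 := abs_nonneg (Real.log C)
    have h5 : 0 < 1 / s := by positivity
    push_cast at h1
    linarith
  set u : E6 → ℝ := fun x => -(s ^ 32)⁻¹ * phi ε x + -L⁻¹ * w x + k with hu
  have hv : (fun x => u x / (s ^ 32)⁻¹ + phi ε x) =
      fun x => (-(s ^ 32 * L⁻¹)) * w x + s ^ 32 * k := by
    funext x
    simp only [hu]
    field_simp
    ring
  have hsing : ∀ x ∈ Reg ε, ∫ y, f y * ‖x - y‖ ^ (-(5 + α)) ≤ J := by
    intro x hx
    have := hf.sing_le finrank_E6 (p := 5 + α) (by linarith) (by linarith) hx.1 hε zero_le_one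
      (fun y hy => ?_)
    · rwa [hint] at this
    · have h1 : y ∉ NN ε s := fun h => by
        have := NN_subset hε hε' hs hs5 h
        have h2 := norm_sub_norm_le x y
        linarith [hx.2.1]
      have h2 : y ∉ Metric.ball pe (3 * s ^ 15) := fun h => by
        rw [mem_ball_iff_norm] at h
        have h3 := norm_sub_le_norm_sub_add_norm_sub x y pe
        linarith [hx.2.2]
      refine (tail_le hf hC.le hs hs1.le hb1 hb2 h1).trans ?_
      rw [TT, indicator_of_notMem h2, add_zero]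
      exact (indicator_le_self' (fun _ _ => by positivity) y).trans hs7.le
  obtain ⟨hd1, hd2⟩ := hpb _ ha α hα0 hα1 f hf
  have hsL : 0 < s ^ 32 * L⁻¹ := by positivity
  refine ⟨(s ^ 32)⁻¹, u, f, hs2, ?_, hf, hint, ?_, hpos, fun x hx => ?_, fun x hx => ?_,
    fun x hx j hj => ?_, fun x hx x' hx' => ?_, ?_, fun x r hx hr1 hr => ?_⟩
  · exact ((contDiff_const.mul (contDiff_phi ε)).add (contDiff_const.mul hws)).add contDiff_const
  · refine le_trans ?_ hs4.le
    rw [← integral_TT C hs]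
    refine le_trans (setIntegral_mono_on hf.integrable.integrableOn
      (integrable_TT C s).integrableOn measurableSet_ball.compl fun y hy => ?_)
      (setIntegral_le_integral (integrable_TT C s) (Eventually.of_forall (TT_nonneg hC.le)))
    refine tail_le hf hC.le hs hs1.le hb1 hb2 fun h => hy ?_
    exact mem_ball_zero_iff.2 (NN_subset hε hε' hs hs5 h)
  · have e : lapPow 3 u = fun x => -L⁻¹ * lapPow 3 w x := by
      rw [hu, lapPow_add 3 ((contDiff_const.mul (contDiff_phi ε)).add (contDiff_const.mul hws))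
        contDiff_const, lapPow_add 3 (contDiff_const.mul (contDiff_phi ε))
        (contDiff_const.mul hws), lapPow_mul 3 _ (contDiff_phi ε), lapPow_mul 3 _ hws,
        lapPow_phi, ((deg_const k).mono (by norm_num)).lapPow_three]
      funext x
      simp
    rw [e]
    have h1 := hδ1 x hx
    have h2 : f x₀ ≤ f x := hmin (mem_closedBall_zero_iff.2 hx)
    have e2 : (-1) ^ 3 * (-L⁻¹ * lapPow 3 w x) = L⁻¹ * lapPow 3 w x := by ring
    simp only
    rw [e2]
    exact h1.trans (by gcongr)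
  · rw [hlog x hx, Real.log_exp]
    have h1 := abs_le.1 (hwW x hx)
    simp only [hu]
    rw [abs_le]
    constructor <;> linarith
  · rw [hv]
    rcases Nat.eq_zero_or_pos j with rfl | hj0
    · rw [norm_iteratedFDeriv_zero, Real.norm_eq_abs]
      have e : -(s ^ 32 * L⁻¹) * w x + s ^ 32 * k = s ^ 32 * (-L⁻¹ * w x + k) := by ring
      rw [e, abs_mul, abs_of_pos (by positivity : 0 < s ^ 32)]
      have h1 : |-L⁻¹ * w x + k| ≤ M + 1 + (|Real.log C| + 88 / s) :=
        (abs_add_le _ _).trans (add_le_add (hwM x hx.1) (by rwa [abs_of_nonneg hk0]))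
      calc s ^ 32 * |-L⁻¹ * w x + k| ≤ s ^ 32 * (M + 1 + (|Real.log C| + 88 / s)) := by gcongr
        _ = s ^ 32 * (M + 1 + |Real.log C|) + 88 * s ^ 31 := by field_simp; ring
        _ ≤ η := hs9.le
    · rw [iteratedFDeriv_affine hws _ _ hj0, norm_smul, norm_neg, Real.norm_of_nonneg hsL.le]
      have h1 := (hd1 x hx.1 j hj0 hj).trans (mul_le_mul_of_nonneg_left (hsing x hx) hCk.le)
      calc s ^ 32 * L⁻¹ * ‖iteratedFDeriv ℝ j w x‖ ≤ s ^ 32 * L⁻¹ * (Ck * (2 * J)) := by
            gcongr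
            refine h1.trans ?_
            gcongr
            linarith
        _ = s ^ 32 * (L⁻¹ * Ck * (2 * J)) := by ring
        _ ≤ η := hs8.le
  · rw [hv, iteratedFDeriv_affine hws _ _ (by norm_num), iteratedFDeriv_affine hws _ _
      (by norm_num), ← smul_sub, norm_smul, norm_neg, Real.norm_of_nonneg hsL.le]
    have h1 := hd2 x x' hx.1 hx'.1
    have h2 := add_le_add (hsing x hx) (hsing x' hx')
    calc s ^ 32 * L⁻¹ * ‖iteratedFDeriv ℝ 5 w x - iteratedFDeriv ℝ 5 w x'‖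
        ≤ s ^ 32 * L⁻¹ * (Ck * ‖x - x'‖ ^ α * (J + J)) := by
          gcongr
          refine h1.trans ?_
          gcongr
      _ = s ^ 32 * (L⁻¹ * Ck * (2 * J)) * ‖x - x'‖ ^ α := by ring
      _ ≤ _ := by gcongr
  · have h1 := (abs_le.1 (hwM pe (by rw [norm_pe]; norm_num))).1
    simp only [hu, phi_pe]
    linarith
  · have hr0 : 0 < r := by rw [hr]; positivity
    have n1 : ‖x + r • pd‖ ≤ 2 := by
      refine (norm_add_le _ _).trans ?_
      rw [norm_smul, norm_pd, Real.norm_of_nonneg hr0.le]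
      linarith
    have n2 : ‖x - r • pd‖ ≤ 2 := by
      refine (norm_sub_le _ _).trans ?_
      rw [norm_smul, norm_pd, Real.norm_of_nonneg hr0.le]
      linarith
    have w1 := (abs_le.1 (hwM _ n1)).2
    have w2 := (abs_le.1 (hwM _ n2)).2
    have w3 := abs_le.1 (hwM x (by linarith))
    have sd := mul_le_mul_of_nonneg_left (phi_second_diff ε r x)
      (show 0 ≤ (s ^ 32)⁻¹ by positivity)
    have hux : u x ≤ M + 1 + k := by
      have : 0 ≤ (s ^ 32)⁻¹ * phi ε x := mul_nonneg (by positivity) (phi_nonneg ε x)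
      simp only [hu]
      linarith [w3.2]
    have hr6 : c' * s ^ 88 ≤ r ^ 6 := by
      have e1 : r ^ 6 = 64 * Real.exp (-(6 * c₀)) * Real.exp (-(6 * u x)) := by
        rw [hr, mul_pow, ← Real.exp_nat_mul, mul_assoc, ← Real.exp_add]
        congr 1
        · norm_num
        · congr 1; push_cast; ring
      have e2 : Real.exp (-(6 * k)) = ZZ c ε s / m := by
        rw [hk, ← mul_assoc, show (6 : ℝ) * (1 / 6) = 1 by norm_num, one_mul, Real.exp_neg,
          Real.exp_log (by positivity), inv_div]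
      have h1 : s ^ 88 / C ≤ ZZ c ε s / m := by
        rw [← inv_div C, ← inv_div m]
        exact inv_anti₀ (by positivity) hb0
      have h2 : Real.exp (-(6 * (M + 1))) * (s ^ 88 / C) ≤ Real.exp (-(6 * u x)) := by
        calc Real.exp (-(6 * (M + 1))) * (s ^ 88 / C)
            ≤ Real.exp (-(6 * (M + 1))) * Real.exp (-(6 * k)) := by rw [e2]; gcongr
          _ ≤ _ := by rw [← Real.exp_add]; exact Real.exp_le_exp.2 (by linarith)
      calc c' * s ^ 88 = 64 * Real.exp (-(6 * c₀)) *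
            (Real.exp (-(6 * (M + 1))) * (s ^ 88 / C)) := by rw [hc']; ring
        _ ≤ _ := by rw [e1]; gcongr
    have hNr : N ≤ (s ^ 32)⁻¹ * r ^ 2 := by
      refine le_of_pow_le_pow_left₀ (n := 3) (by norm_num) (by positivity) ?_
      calc N ^ 3 = (N ^ 3 * s ^ 8) * s ^ 88 / s ^ 96 := by field_simp
        _ ≤ c' * s ^ 88 / s ^ 96 := by gcongr
        _ ≤ r ^ 6 / s ^ 96 := by gcongr
        _ = _ := by field_simp
    simp only [hu]
    linarith

end Pool.Agent.Lib.MP_af5b7f_an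
end
end

-- part Pool.Agent.Lib.MP_af5b7f_an.Final
section

/-! The blow-up sequence. -/

set_option autoImplicit false

open Filter Topology MeasureTheory Set
open scoped ContDiff InnerProductSpace Real

noncomputable section

namespace Pool.Agent.Lib.MP_af5b7f_an

lemma lambdaOne_pos : 0 < lambdaOne 3 := by
  unfold lambdaOne
  have : 0 < Real.Gamma ((2 * ((3 : ℕ) : ℝ) + 1) / 2) := Real.Gamma_pos_of_pos (by positivity)
  positivity

lemma Deg.iteratedFDeriv_eq_zero : ∀ {d : ℕ} {f : E6 → ℝ}, Deg d f → ∀ x,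
    iteratedFDeriv ℝ d f x = 0
  | 0, _, h, x => by rw [show _ = _ from h]; ext; simp
  | d + 1, _, h, x => by
    ext m
    rw [iteratedFDeriv_succ_dd h.1, (h.2 _).iteratedFDeriv_eq_zero]
    rfl

/-- the small parameters -/
def ee (k : ℕ) : ℝ := ((k : ℝ) + 2)⁻¹

lemma ee_pos (k : ℕ) : 0 < ee k := by unfold ee; positivity

lemma ee_le (k : ℕ) : ee k ≤ 1 / 2 := by
  unfold ee
  rw [one_div]
  exact inv_anti₀ (by norm_num) (by linarith [Nat.cast_nonneg (α := ℝ) k])

lemma ee_inv_tendsto : Tendsto (fun k => (ee k)⁻¹) atTop atTop := by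
  simp only [ee, inv_inv]
  exact tendsto_atTop_add_const_right _ _ tendsto_natCast_atTop_atTop

lemma ee_tendsto : Tendsto ee atTop (𝓝 0) := by
  have := tendsto_inv_atTop_zero.comp ee_inv_tendsto
  simpa [Function.comp_def] using this

lemma ee_mul_lt (A : ℝ) {η : ℝ} (hη : 0 < η) : ∀ᶠ k in atTop, A * ee k < η := by
  have := ee_tendsto.const_mul A
  rw [mul_zero] at this
  exact this.eventually_lt_const hη

/-- the normalising constant in the definition of spherical blow-up -/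
def cc : ℝ := 1 / (2 * ((3 : ℕ) : ℝ)) * Real.log (1 / ((2 * 3 - 1).factorial : ℝ))

/-- the potentials -/
def VV (u : ℕ → E6 → ℝ) (k : ℕ) (x : E6) : ℝ :=
  (-1) ^ 3 * lapPow 3 (u k) x * Real.exp (-(2 * ((3 : ℕ) : ℝ) * u k x))

lemma VV_mul (u : ℕ → E6 → ℝ) (k : ℕ) (x : E6) :
    VV u k x * Real.exp (2 * ((3 : ℕ) : ℝ) * u k x) = (-1) ^ 3 * lapPow 3 (u k) x := by
  rw [VV, mul_assoc _ (Real.exp _), ← Real.exp_add]
  simp

section Seq

variable {B : ℕ → ℝ} {u f : ℕ → E6 → ℝ}
  (h : ∀ k, Good (lambdaOne 3) cc (ee k) (ee k) (1 - ee k) (B k) (u k) (f k))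

include h

lemma seq_solution : IsSolutionSeq 3 (Metric.ball (0 : E6) 2) u (VV u) (fun _ => 1) := by
  have hc : ∀ k, Continuous (u k) := fun k => (h k).smooth.continuous
  have hi : ∀ k, IntegrableOn (fun x => Real.exp (2 * ((3 : ℕ) : ℝ) * u k x))
      (Metric.ball (0 : E6) 2) := fun k =>
    (ContinuousOn.integrableOn_compact (isCompact_closedBall (0 : E6) 2)
      (Continuous.continuousOn (by have := hc k; fun_prop))).mono_set Metric.ball_subset_closedBall
  refine ⟨fun k => ((h k).smooth.of_le (nat_le_infty _)).contDiffOn, fun k => ?_,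
    fun k x _ => (VV_mul u k x).symm, hi, ⟨3 * lambdaOne 3, fun k => ?_⟩, ?_,
    continuousOn_const, fun _ _ => one_pos⟩
  · have h1 := hc k
    have h2 := (contDiff_lapPow 3 (h k).smooth).continuous
    unfold VV
    fun_prop
  · rw [← (h k).int, ← integral_const_mul]
    refine le_trans (setIntegral_mono_on (hi k)
      ((h k).dens.integrable.const_mul 3).integrableOn measurableSet_ball fun x hx => ?_)
      (setIntegral_le_integral ((h k).dens.integrable.const_mul 3)
        (Eventually.of_forall fun x => mul_nonneg (by norm_num) ((h k).dens.nonneg x)))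
    have hx' : ‖x‖ ≤ 2 := (mem_ball_zero_iff.1 hx).le
    have h1 := (abs_le.1 ((h k).eq2 x hx')).1
    have h2 := ee_le k
    calc Real.exp (2 * ((3 : ℕ) : ℝ) * u k x) ≤ Real.exp (1 + Real.log (f k x)) :=
          Real.exp_le_exp.2 (by push_cast; linarith)
      _ = Real.exp 1 * f k x := by rw [Real.exp_add, Real.exp_log ((h k).pos x hx')]
      _ ≤ 3 * f k x := by
          gcongr
          · exact (h k).dens.nonneg x
          · exact Real.exp_one_lt_three.le
  · refine TendstoUniformlyOn.tendstoLocallyUniformlyOn (Metric.tendstoUniformlyOn_iff.2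
      fun η hη => ?_)
    filter_upwards [ee_mul_lt 5 hη] with k hk x hx
    have hx' : ‖x‖ ≤ 2 := (mem_ball_zero_iff.1 hx).le
    have h1 := (h k).eq2 x hx'
    have h2 := ee_le k
    have h3 := ee_pos k
    have h4 := (h k).eq1 x hx'
    have h5 := Real.abs_exp_sub_one_le (h1.trans (by linarith))
    have e1 : Real.exp (Real.log (f k x) - 6 * u k x) =
        f k x * Real.exp (-(2 * ((3 : ℕ) : ℝ) * u k x)) := by
      rw [sub_eq_add_neg, Real.exp_add, Real.exp_log ((h k).pos x hx')]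
      congr 2
      push_cast
      ring
    rw [e1] at h5
    have h6 := abs_le.1 (h5.trans (show _ ≤ 2 * ee k by linarith))
    have h7 := mul_le_mul_of_nonneg_right h4
      (Real.exp_pos (-(2 * ((3 : ℕ) : ℝ) * u k x))).le
    rw [← abs_of_pos (Real.exp_pos (-(2 * ((3 : ℕ) : ℝ) * u k x))), ← abs_mul,
      abs_of_pos (Real.exp_pos (-(2 * ((3 : ℕ) : ℝ) * u k x))), sub_mul, mul_assoc (ee k)] at h7
    have h8 : ee k * (f k x * Real.exp (-(2 * ((3 : ℕ) : ℝ) * u k x))) ≤ ee k * 2 := by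
      gcongr
      linarith [h6.2]
    have h9 := abs_le.1 (h7.trans h8)
    rw [Real.dist_eq, abs_lt, VV]
    constructor <;> linarith [h6.1, h6.2, h9.1, h9.2]

lemma mass_tendsto {S : Set E6} (hS : MeasurableSet S) (hS2 : S ⊆ Metric.closedBall 0 2) {l : ℝ}
    (hl : Tendsto (fun k => ∫ y in S, f k y) atTop (𝓝 l)) :
    Tendsto (fun k => ∫ y in S, VV u k y * Real.exp (2 * ((3 : ℕ) : ℝ) * u k y)) atTop (𝓝 l) := by
  simp_rw [VV_mul]
  have h0 : Tendsto (fun k => (∫ y in S, (-1) ^ 3 * lapPow 3 (u k) y) - ∫ y in S, f k y) atTop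
      (𝓝 0) := by
    have := ee_tendsto.mul_const (lambdaOne 3)
    rw [zero_mul] at this
    refine squeeze_zero_norm (fun k => ?_) this
    have i1 : IntegrableOn (fun y => (-1) ^ 3 * lapPow 3 (u k) y) S :=
      (ContinuousOn.integrableOn_compact (isCompact_closedBall (0 : E6) 2)
        (continuous_const.mul (contDiff_lapPow 3 (h k).smooth).continuous).continuousOn).mono_set
        hS2
    have i2 := (h k).dens.integrable
    rw [← integral_sub i1 i2.integrableOn, ← (h k).int, ← integral_const_mul]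
    refine le_trans (norm_integral_le_of_norm_le (i2.const_mul (ee k)).integrableOn ?_)
      (setIntegral_le_integral (i2.const_mul _)
        (Eventually.of_forall fun x => mul_nonneg (ee_pos k).le ((h k).dens.nonneg x)))
    refine (ae_restrict_iff' hS).2 (Eventually.of_forall fun x hx => ?_)
    exact (h k).eq1 x (mem_closedBall_zero_iff.1 (hS2 hx))
  simpa using h0.add hl

lemma tail_tendsto {S : Set E6} {d : ℝ} (hd : 0 < d) (hS : ∀ y ∈ S, d ≤ ‖y‖) :
    Tendsto (fun k => ∫ y in S, f k y) atTop (𝓝 0) := by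
  refine squeeze_zero' (Eventually.of_forall fun k => integral_nonneg (h k).dens.nonneg) ?_
    ee_tendsto
  filter_upwards [ee_mul_lt 2 hd] with k hk
  refine le_trans (setIntegral_mono_set (h k).dens.integrable.integrableOn
    (Eventually.of_forall (h k).dens.nonneg) (LE.le.eventuallyLE fun y hy => ?_))
    (h k).tail
  rw [mem_compl_iff, mem_ball_zero_iff, not_lt]
  linarith [hS y hy]

lemma seq_concSet : concSet 3 (Metric.ball (0 : E6) 2) u (VV u) = {0} := by
  ext x
  constructor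
  · rintro ⟨hx, L, hL, hT⟩
    by_contra hx0
    have hx1 : 0 < ‖x‖ := norm_pos_iff.2 hx0
    have hx2 : ‖x‖ < 2 := mem_ball_zero_iff.1 hx
    have : L = 0 := by
      refine tendsto_nhds_unique hT (tendsto_const_nhds.congr' ?_)
      filter_upwards [ev_small (g := fun r => r) (η := ‖x‖ / 2) continuous_id (by positivity),
        ev_small (g := fun r => r) (η := 2 - ‖x‖) continuous_id (by linarith)] with r hr1 hr2
      refine (Tendsto.liminf_eq (mass_tendsto h measurableSet_ball (fun y hy => ?_)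
        (tail_tendsto h (d := ‖x‖ / 2) (by positivity) fun y hy => ?_))).symm
      · rw [mem_ball_iff_norm] at hy
        rw [mem_closedBall_zero_iff]
        linarith [norm_sub_norm_le y x]
      · rw [mem_ball_iff_norm'] at hy
        linarith [norm_sub_norm_le x y]
    linarith [lambdaOne_pos]
  · rintro rfl
    refine ⟨by simp, lambdaOne 3, by linarith [lambdaOne_pos], tendsto_const_nhds.congr' ?_⟩
    filter_upwards [ev_pos, ev_small (g := fun r => r) (η := 2) continuous_id (by norm_num)]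
      with r hr hr2
    refine (Tendsto.liminf_eq (mass_tendsto h measurableSet_ball
      (Metric.ball_subset_closedBall.trans (Metric.closedBall_subset_closedBall hr2.le)) ?_)).symm
    have h1 := (tail_tendsto h (S := (Metric.ball (0 : E6) r)ᶜ) hr fun y hy => by
      simpa using hy).const_sub (lambdaOne 3)
    rw [sub_zero] at h1
    refine h1.congr fun k => ?_
    rw [← (h k).int, ← integral_add_compl (s := Metric.ball (0 : E6) r) measurableSet_ball
      (h k).dens.integrable]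
    ring

omit h in
lemma zeroSet_eq : zeroSet (Metric.ball (0 : E6) 2) {0} (fun x => -phi 0 x) = {pe} := by
  ext x
  constructor
  · rintro ⟨hx, h0⟩
    exact (phi_zero_eq_zero (neg_eq_zero.1 h0)).resolve_left hx.2
  · rintro rfl
    refine ⟨⟨by rw [mem_ball_zero_iff, norm_pe]; norm_num, fun h => ?_⟩, by simp [phi_pe]⟩
    have := norm_pe
    rw [mem_singleton_iff.1 h] at this
    simp at this

omit h in
lemma memK_phi : MemK 3 (Metric.ball (0 : E6) 2) {0} (fun x => -phi 0 x) := by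
  refine ⟨(contDiff_phi 0).neg.contDiffOn, fun x _ => neg_nonpos.2 (phi_nonneg 0 x),
    ⟨pd, ⟨by rw [mem_ball_zero_iff, norm_pd]; norm_num, fun h => ?_⟩,
      neg_ne_zero.2 (phi_pos_of_ne (by simp [pd])).ne'⟩, fun x _ => ?_⟩
  · have := norm_pd
    rw [mem_singleton_iff.1 h] at this
    simp at this
  · have := ((deg_phi 0).const_mul (-1)).succ.lapPow_three
    simp only [neg_mul, one_mul] at this
    rw [this]

omit h in
lemma eventually_reg {K : Set E6} (hK : IsCompact K)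
    (hKU : K ⊆ Metric.ball (0 : E6) 2 \ ({0} ∪ {pe})) : ∀ᶠ k in atTop, K ⊆ Reg (ee k) := by
  obtain ⟨d, hd, hdK⟩ := hK.exists_forall_le' (f := fun x : E6 => min ‖x‖ ‖x - pe‖) (a := 0)
    (Continuous.continuousOn (by fun_prop)) fun x hx => by
      have := (hKU hx).2
      simp only [mem_union, mem_singleton_iff, not_or] at this
      exact lt_min (norm_pos_iff.2 this.1) (norm_pos_iff.2 (sub_ne_zero.2 this.2))
  filter_upwards [ee_mul_lt 3 hd] with k hk x hx
  have h1 := le_min_iff.1 (hdK x hx)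
  exact ⟨(mem_ball_zero_iff.1 (hKU hx).1).le, by linarith [h1.1], by linarith [h1.2]⟩

lemma deriv_split (k j : ℕ) (x : E6) :
    iteratedFDeriv ℝ j (fun x => u k x / B k) x - iteratedFDeriv ℝ j (fun x => -phi 0 x) x =
      iteratedFDeriv ℝ j (fun x => u k x / B k + phi (ee k) x) x -
        (iteratedFDeriv ℝ j (phi (ee k)) x - iteratedFDeriv ℝ j (phi 0) x) := by
  rw [fun_iteratedFDeriv_add_apply
    (((h k).smooth.div_const _).contDiffAt.of_le (nat_le_infty j))
    ((contDiff_phi _).contDiffAt.of_le (nat_le_infty j)),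
    show (fun x => -phi 0 x) = -phi 0 from rfl, iteratedFDeriv_neg_apply]
  abel

omit h in
lemma phi_deriv_close : ∃ M : ℝ, 0 ≤ M ∧ ∀ ε : ℝ, 0 ≤ ε → ε ≤ 1 → ∀ j ≤ 5, ∀ x : E6, ‖x‖ ≤ 2 →
    ‖iteratedFDeriv ℝ j (phi ε) x - iteratedFDeriv ℝ j (phi 0) x‖ ≤ M * ε := by
  have c0 : ContDiff ℝ ∞ (fun x : E6 => 1 - x 2) := contDiff_const.sub (deg_coord 2).contDiff
  have c1 : ContDiff ℝ ∞ (fun x : E6 => -2 * (rho x * (1 - x 2))) :=
    contDiff_const.mul (deg_rho.contDiff.mul c0)
  have c2 : ContDiff ℝ ∞ (fun x : E6 => (1 - x 2) ^ 2) := c0.pow 2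
  obtain ⟨M₁, hM₁, h1⟩ := exists_bound_upto c1 2 5
  obtain ⟨M₂, hM₂, h2⟩ := exists_bound_upto c2 2 5
  refine ⟨M₁ + M₂, by linarith, fun ε hε0 hε1 j hj x hx => ?_⟩
  have d1 : ContDiffAt ℝ j (fun x : E6 => -2 * (rho x * (1 - x 2))) x :=
    c1.contDiffAt.of_le (nat_le_infty j)
  have d2 : ContDiffAt ℝ j (fun x : E6 => (1 - x 2) ^ 2) x := c2.contDiffAt.of_le (nat_le_infty j)
  rw [phi_sub ε, fun_iteratedFDeriv_add_apply
    ((contDiff_phi _).contDiffAt.of_le (nat_le_infty j))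
    ((contDiffAt_const.mul d1).add (contDiffAt_const.mul d2)), add_sub_cancel_left,
    fun_iteratedFDeriv_add_apply (contDiffAt_const.mul d1) (contDiffAt_const.mul d2)]
  have e1 := iteratedFDeriv_const_smul_apply' (a := ε ^ 2) d1
  have e2 := iteratedFDeriv_const_smul_apply' (a := ε ^ 4) d2
  simp only [smul_eq_mul] at e1 e2
  rw [e1, e2]
  refine (norm_add_le _ _).trans ?_
  rw [norm_smul, norm_smul, Real.norm_of_nonneg (by positivity),
    Real.norm_of_nonneg (by positivity), add_mul, mul_comm M₁, mul_comm M₂]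
  have p2 : ε ^ 2 ≤ ε := pow_le_of_le_one hε0 hε1 (by norm_num)
  have p4 : ε ^ 4 ≤ ε := pow_le_of_le_one hε0 hε1 (by norm_num)
  gcongr
  · exact h1 j hj x hx
  · exact h2 j hj x hx

lemma seq_holder {α : ℝ} (hα0 : 0 ≤ α) (hα1 : α < 1) :
    TendstoCkHolder (2 * 3 - 1) α (Metric.ball (0 : E6) 2 \ ({0} ∪ {pe}))
      (fun k x => u k x / B k) (fun x => -phi 0 x) := by
  obtain ⟨M, hM0, hM⟩ := phi_deriv_close
  refine ⟨fun K hKU hK j hj => Metric.tendstoUniformlyOn_iff.2 fun η hη => ?_,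
    fun K hKU hK η hη => ?_⟩
  · filter_upwards [eventually_reg hK hKU, ee_mul_lt (1 + M) hη] with k hk1 hk2 x hx
    rw [dist_comm, dist_eq_norm, deriv_split h]
    have h1 := (h k).der x (hk1 hx) j hj
    have h2 := hM (ee k) (ee_pos k).le (by linarith [ee_le k]) j hj x (hk1 hx).1
    refine (norm_sub_le _ _).trans_lt ?_
    linarith
  · filter_upwards [eventually_reg hK hKU, ee_mul_lt 4 hη,
      ee_mul_lt 1 (show 0 < 1 - α by linarith)] with k hk1 hk2 hk3 x hx y hy
    rw [deriv_split h, deriv_split h]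
    have z := fun ε x => (deg_phi ε).iteratedFDeriv_eq_zero x
    simp only [z, sub_zero]
    refine ((h k).hol x (hk1 hx) y (hk1 hy)).trans ?_
    have h1 : ‖x - y‖ ≤ 4 := by linarith [norm_sub_le x y, (hk1 hx).1, (hk1 hy).1]
    have h2 : ‖x - y‖ ^ (1 - ee k) ≤ 4 * ‖x - y‖ ^ α := by
      calc ‖x - y‖ ^ (1 - ee k) = ‖x - y‖ ^ ((1 - ee k - α) + α) := by congr 1; ring
        _ = ‖x - y‖ ^ (1 - ee k - α) * ‖x - y‖ ^ α :=
          Real.rpow_add_of_nonneg (norm_nonneg _) (by linarith) hα0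
        _ ≤ 4 * ‖x - y‖ ^ α := by
          gcongr
          calc ‖x - y‖ ^ (1 - ee k - α) ≤ (4 : ℝ) ^ (1 - ee k - α) :=
                Real.rpow_le_rpow (norm_nonneg _) h1 (by linarith)
            _ ≤ (4 : ℝ) ^ (1 : ℝ) :=
                Real.rpow_le_rpow_of_exponent_le (by norm_num) (by linarith [ee_pos k])
            _ = 4 := Real.rpow_one _
    have h3 := ee_pos k
    calc ee k * ‖x - y‖ ^ (1 - ee k) ≤ ee k * (4 * ‖x - y‖ ^ α) := by gcongr
      _ = 4 * ee k * ‖x - y‖ ^ α := by ring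
      _ ≤ _ := by gcongr

lemma seq_blowUp : IsBlowUp 3 (Metric.ball (0 : E6) 2) u (VV u) (fun x => -phi 0 x) B := by
  unfold IsBlowUp
  rw [seq_concSet h, zeroSet_eq]
  exact ⟨finite_singleton _, memK_phi, tendsto_atTop_mono (fun k => (h k).hB) ee_inv_tendsto,
    fun α h0 h1 => seq_holder h h0 h1⟩

lemma seq_not_spherical : ¬ IsSpherical 3 u 1 0 := by
  rintro ⟨σ, x, r, w, hσ, hw, hr, hx, hr0, hT⟩
  have pt : ∀ y : E6, Tendsto (fun k => w k (x k + r k • y) + Real.log (r k)) atTop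
      (𝓝 (Real.log (2 / (1 + ‖y‖ ^ 2)))) := by
    intro y
    have h1 := (hT {y} (subset_univ _) isCompact_singleton 0 (Nat.zero_le _)).tendsto_at
      (mem_singleton y)
    have h2 := ((ContinuousMultilinearMap.apply ℝ (fun _ : Fin 0 => E6) ℝ
      (fun _ => 0)).continuous.tendsto _).comp h1
    simpa [Function.comp_def] using h2
  have h1 := ((pt pd).add (pt (-pd))).sub ((pt 0).const_mul 2)
  have h2 : Tendsto (fun k => w k (x k + r k • pd) + Real.log (r k) +
      (w k (x k + r k • -pd) + Real.log (r k)) -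
      2 * (w k (x k + r k • (0 : E6)) + Real.log (r k))) atTop atBot := by
    refine tendsto_atBot_mono' atTop ?_
      (tendsto_neg_atTop_atBot.comp (ee_inv_tendsto.comp hσ.tendsto_atTop))
    filter_upwards [hx.norm.eventually_le_const (show ‖(0 : E6)‖ < 1 by simp),
      hr0.eventually_le_const one_pos] with k hk1 hk2
    have := (h (σ k)).second (x k) (r k) hk1 hk2 (by rw [hr k, hw, cc])
    simp only [hw, smul_neg, smul_zero, add_zero, ← sub_eq_add_neg, Function.comp]
    linarith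
  exact not_tendsto_nhds_of_tendsto_atBot h2 _ h1

end Seq

theorem counterexample : ∃ (u V : ℕ → E6 → ℝ) (φ : E6 → ℝ) (β : ℕ → ℝ),
    IsSolutionSeq 3 (Metric.ball 0 2) u V (fun _ => 1) ∧
    IsBlowUp 3 (Metric.ball 0 2) u V φ β ∧
    concSet 3 (Metric.ball 0 2) u V = {0} ∧
    zeroSet (Metric.ball 0 2) (concSet 3 (Metric.ball 0 2) u V) φ = {pe} ∧
    Tendsto (fun k => u k pe) atTop atTop ∧
    ¬ IsSpherical 3 u 1 0 := by
  choose B u f h using fun k => exists_good lambdaOne_pos cc (ee_pos k) (ee_le k) (ee_pos k)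
    (by linarith [ee_le k]) (α := 1 - ee k) (by linarith [ee_le k]) (by linarith [ee_pos k])
  refine ⟨u, VV u, fun x => -phi 0 x, B, seq_solution h, seq_blowUp h, seq_concSet h, ?_,
    tendsto_atTop_mono (fun k => (h k).ate) ee_inv_tendsto, seq_not_spherical h⟩
  rw [seq_concSet h, zeroSet_eq]

end Pool.Agent.Lib.MP_af5b7f_an
end
end
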